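import Pool.Agent.Helper74.UB.Defs3

/-!
# UB, part 3: layered plane maps, host maps, cones

All definitions are in `Defs3`.
-/

namespace Pool.Agent.Helper74.UB

open Finset Equiv Helper28.VF
open scoped Classical

/-! ## The plane map of a layout -/

/-- **PHI.** The face permutation of a layout exists.

Proof. Define `φ` by the formulas of `IsPhi`: `dE v ↦ dE (e v)` in the top row, else `dU (e v) k` with
the `k` of `Ax.ul (e v)` (westmost upper neighbour); `dW v ↦ dW (e⁻¹ v)` in the bottom row, else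
`dN u v` with the `u` of `Ax.dr v`; `dU v k ↦ dN (e⁻¹ v) k` if `up (e⁻¹ v) k`, else `dW (e⁻¹ k)`;
`dN v k ↦ dU v (e k)` if `up v (e k)`, else `dE v`.  (In `E2`, `W2` use the uniqueness in `ul`, `dr`.)
`φ` is injective, hence bijective (finite type): outputs `dE w`: from `dE (e⁻¹ w)`, `w` in the top
row, or from `dN w k` with `up w k`, `¬ up w (e k)`, where `k` is unique by `ur w` (and `row w < r1`
by `up_row`, `bnd`).  Outputs `dU w k`: from `dE (e⁻¹ w)` with `¬ up w (e⁻¹ k)`, or from
`dN w (e⁻¹ k)` with `up w (e⁻¹ k)`.  Outputs `dN u v`: from `dW v` with `¬ up (e u) v`, or from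
`dU (e u) v` with `up (e u) v`.  Outputs `dW w`: from `dW (e w)` in the bottom row, or from
`dU v (e w)` with `up v (e w)`, `¬ up (e⁻¹ v) (e w)`, where `v` is unique by `dl (e w)`.
The starts: check the cases. -/
def StmtPhi : Prop :=
  ∀ (V : Type) [Fintype V] (L : Lay V), L.Ax →
    ∃ φ : Perm (DL L), IsPhi L φ ∧ ∀ d, L.vt (φ d) = L.vt (L.al d)

/-- **PHIV.** The darts that start at a vertex form one cycle of `σ = φ * al`.

Proof. `σ` preserves `L.vt` because `vt (φ (al d)) = vt (al (al d)) = vt d`; this gives one direction.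
For the other direction every dart `d` at `v` is in the cycle of `dE v`.
(a) `d = dU v k`: `σ d = φ (dN v k)` is `dU v (e k)` if `up v (e k)`, else `dE v`.  If the iteration
never reaches `dE v` then `up v (e^n k)` for all `n`; the vertex `k₀` of `Ax.ul v` is in the row of
`k`, so `k₀ = e^n k` and `e⁻¹ k₀ = e^m k` for some `m` (`Ax.cyc`), but `¬ up v (e⁻¹ k₀)`.
(b) `d = dW (e⁻¹ v)` (it starts at `v`): `σ d = φ (dE (e⁻¹ v))` is `dE v` in the top row and
`dU v k₀` otherwise; use (a).
(c) `d = dN u v`: `σ d = φ (dU u v)` is `dN (e⁻¹ u) v` if `up (e⁻¹ u) v`, else `dW (e⁻¹ v)`; if the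
iteration never reaches `dW (e⁻¹ v)` then `up (e^(-n) u) v` for all `n`; all vertices in the row of
`u` have this form (`cyc`, finite order of `e`), in particular `e⁻¹ u₀` for the `u₀` of `Ax.dl v`,
contradiction.  Use (b). -/
def StmtPhiV : Prop :=
  ∀ (V : Type) [Fintype V] (L : Lay V), L.Ax → ∀ φ : Perm (DL L), IsPhi L φ →
    (∀ d, L.vt (φ d) = L.vt (L.al d)) →
    ∀ d e, L.vt d = L.vt e ↔ (φ * L.al).SameCycle d e

/-- **PHIF.** The faces: the top face, the bottom face, and one face for each edge between two rows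
(the face to the west of it).

Proof. Labels: `F (dU v k) = inl (v, k)`.  `F (dE v) = inr true` in the top row, else
`inl (e v, k₁)` with the `k₁` of `Ax.ul (e v)`.  `F (dN v k) = inl (v, e k)` if `up v (e k)`, else
`F (dE v)`.  `F (dW v) = inr false` in the bottom row, else `F (dN u v)` with the `u` of `Ax.dr v`.
(a) `F (φ d) = F d`: for `d = dE v, dN v k, dW v` by definition (`row (e v) = row v`).  Let
`d = dU v k`.  If `up (e⁻¹ v) k` then `φ d = dN (e⁻¹ v) k`; by `cross (e⁻¹ v) k`,
`¬ up (e⁻¹ v) (e k)` (because `up v k`), so `F (φ d) = F (dE (e⁻¹ v)) = inl (v, k₁)`, and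
`k₁ = k` because `¬ up v (e⁻¹ k)` by `cross (e⁻¹ v) (e⁻¹ k)` (and `up (e⁻¹ v) k`).
Otherwise `φ d = dW (e⁻¹ k)`.  If `up v (e⁻¹ k)`: the eastmost lower neighbour of `e⁻¹ k` is `v`,
because `¬ up (e v) (e⁻¹ k)` by `cross v (e⁻¹ k)`; so `F (φ d) = F (dN v (e⁻¹ k)) = inl (v, k)`.
If `¬ up v (e⁻¹ k)` then `up (e⁻¹ v) (e⁻¹ k)` by `west`; the eastmost lower neighbour of `e⁻¹ k` is
`e⁻¹ v`; `F (φ d) = F (dN (e⁻¹ v) (e⁻¹ k)) = F (dE (e⁻¹ v))` because `¬ up (e⁻¹ v) k`, and this is
`inl (v, k)` because `¬ up v (e⁻¹ k)`.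
(b) Same label implies same cycle: by the definition of `F`, if `F d = inl p` then some `φ^i d`,
`i ≤ 3`, is `dU p` (`dN → dU` or `dE → dU`, `dW → dN`).  `F d = inr true` only for `d = dE v` in the
top row, and these form one cycle by `cyc`; also `inr false`.
(c) Surjective: from any vertex one can go up by `ul` until the top row, and down by `dl` to the
bottom row. -/
def StmtPhiF : Prop :=
  ∀ (V : Type) [Fintype V] (L : Lay V), L.Ax → ∀ φ : Perm (DL L), IsPhi L φ →
    ∃ F : DL L → {p : V × V // L.up p.1 p.2} ⊕ Bool, Function.Surjective F ∧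
      ∀ d e, F d = F e ↔ φ.SameCycle d e

/-- **LAYPM.** The plane map of a layout (from PHI, PHIV, PHIF, which may be assumed).

Proof. `σ = φ * al`, `α = al`, `vt = L.vt`; edges `V ⊕ {p // up p.1 p.2}` (forget the `Bool`); faces
and `fc` from PHIF (`σ * α = φ`).  `ph M = φ`.  Connected: let `P` be closed under `σ`, `α` and hold
for one dart; by PHIV it then holds for all darts at a vertex, and with a vertex for all adjacent
vertices; from every vertex one reaches the top row by `ul`, and the top row is one cycle of `e`; so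
`P` holds for all darts.  Euler: `|V| + (|Up| + 2) = (|V| + |Up|) + 2`.
`dE v = inl (v, true)`, `dW v = inl (v, false)`, `dU v k = inr (⟨(v, k), _⟩, true)` and
`dN v k = inr (⟨(v, k), _⟩, false)` if `up v k` (else anything). -/
def StmtLayPM : Prop :=
  ∀ (V : Type) [Fintype V] (L : Lay V), L.Ax →
    ∃ (E F : Type) (_ : Fintype E) (_ : Fintype F) (M : PM (DL L) V E F) (dE dW : V → DL L)
      (dU dN : V → V → DL L), LM L M dE dW dU dN

/-! ## The host layout -/

/-- **HOSTAX.** The axioms for the concrete host layout.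

Proof. Write `N = 3 * 2^K`, `δ = 2^(lev r)` in `ZMod N` for the row `r`; `lev r ≤ K`.  Facts about
`ZMod N`: if `l ≤ K` and `2^l ∣ x` then `x = 2^l * j` with a natural number `j < 3 * 2^(K-l)`, and
`2^l * a = 2^l * b` (`a, b` integers) iff `a ≡ b mod 3 * 2^(K-l)`.
`cyc`: two positions in the row differ by `2^l * n`.  `e1`, `e2`: `1, 2` are not divisible by
`3 * 2^(K-l) ≥ 3`.  `west`: squares: third case.  Odd flat rows: position of `k` equals that of `v`:
first case; plus one: second case.  Caps, `i = k + c m` with `m = 2^(min ...)`: above (`row v ≥ h`,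
`e` moves `i` by `m` and `k` by `2 m`): `c = 0`: second case (`i = (k - 2 m) + 2 m`), `c = 1, 2`:
first case.  Below (`row v < 0`, `e` moves `i` by `2 m` and `k` by `m`): `c = 0, 1`: second case,
`c = 2`: first case.
`cross`: flat: clear modulo `N ≥ 6`.  Cap above: `up v (e k)`: `i - k ∈ {2 m, 3 m, 4 m}`,
`up (e v) k`: `i - k ∈ {-m, 0, m}`; these are disjoint because `m` has order
`3 * 2^(K - l) ≥ 6` (`l ≤ K - 1`).  Below: `i - k - m ∈ {0, m, 2 m}` and `i + 2 m - k ∈ {0, m, 2 m}`,
i.e. `{m, 2 m, 3 m}` and `{-2 m, -m, 0}`, disjoint.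
`ul, ur, dl, dr`: squares: the only neighbour.  Odd flat rows: upper neighbours of `i` are `i`
(westmost), `i + 1` (eastmost), lower neighbours of `k` are `k - 1` (westmost), `k` (eastmost).
Cap above, `v` at `i`: if `2 m ∣ i` the upper neighbours are `i - 2 m` (westmost) and `i` (eastmost),
otherwise only `i - m`.  `k` has the lower neighbours `k` (westmost), `k + m`, `k + 2 m` (eastmost).
Cap below, `v` at `i` (`2 m ∣ i`): upper neighbours `i - 2 m` (westmost), `i - m`, `i` (eastmost);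
`k`: if `2 m ∣ k` lower neighbours `k` (westmost), `k + 2 m` (eastmost), otherwise only
`k + m`. -/
def StmtHostAx : Prop := ∀ K h : ℕ, 1 ≤ K → Odd h → (hostL K h).Ax

/-- **HOSTFLAT.** Proof: unfold; `lev h r = 0` for `0 ≤ r ≤ h`. -/
def StmtHostFlat : Prop := ∀ K h : ℕ, 1 ≤ K → Odd h →
  Flat (hostL K h) (3 * 2 ^ K) h (hostF K h)

/-- **HOSTREST.** The other fields of `Host`.

Proof. `top3`, `bot3`: `lev = K` in the top and bottom row, `3 * 2^K = 0`.  `tri`, `up2`, `up3`, `dn2`,
`dn3`: the lists of neighbours in the docstring of HOSTAX.  `cap`: the row `h + j` (`1 ≤ j ≤ K`) has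
`3 * 2^(K-j)` vertices, and also the row `-j`; the sum over `j` is `< 3 * 2^K`. -/
def StmtHostRest : Prop := ∀ K h : ℕ, 1 ≤ K → Odd h →
  (∀ v, (hostL K h).row v = (hostL K h).r1 →
    (hostL K h).e ((hostL K h).e ((hostL K h).e v)) = v) ∧
  (∀ v, (hostL K h).row v = (hostL K h).r0 →
    (hostL K h).e ((hostL K h).e ((hostL K h).e v)) = v) ∧
  (∀ v k, (hostL K h).up v k → (hostL K h).row v < 0 ∨ (h : ℤ) ≤ (hostL K h).row v →
    (hostL K h).up ((hostL K h).e.symm v) k ∨ (hostL K h).up v ((hostL K h).e.symm k)) ∧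
  (∀ v, (h : ℤ) ≤ (hostL K h).row v → (univ.filter fun k => (hostL K h).up v k).card ≤ 2) ∧
  (∀ v, (univ.filter fun k => (hostL K h).up v k).card ≤ 3) ∧
  (∀ v, (hostL K h).row v ≤ 0 → (univ.filter fun u => (hostL K h).up u v).card ≤ 2) ∧
  (∀ v, (univ.filter fun u => (hostL K h).up u v).card ≤ 3)

/-- **HOSTCAP.** The number of vertices of the caps. Proof: see HOSTREST. -/
def StmtHostCap : Prop := ∀ K h : ℕ, 1 ≤ K → Odd h →
  (univ.filter fun v : HV K h => (hostL K h).row v < 0 ∨ (h : ℤ) < (hostL K h).row v).card ≤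
    2 * (3 * 2 ^ K)

/-- **FLIP.** A host turned by 180 degrees is a host, and its map is the same map.

Proof. `L' = L.flip h`, `f' = flipF h f`.  The axioms are symmetric: `west` for `L'` is `east` for `L`:
`up v k → up (e v) k ∨ up v (e k) ∨ up (e v) (e k)`; proof: if `¬ up (e v) k` and `¬ up v (e k)`:
then `v` is the eastmost lower neighbour of `k`, and `k` the eastmost upper neighbour of `v`.
`row (e v) < r1`, so by `ul` there is the westmost upper neighbour `k'` of `e v`.  By `west` for the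
edge `(e v, k')`: (1) `up v k'`: then `k'` is the eastmost upper neighbour of `v`
(`cross v k'` with `up (e v) k'`), so `k' = k`, against `¬ up (e v) k`.  (2) `up (e v) (e⁻¹ k')` is
false.  (3) `up v (e⁻¹ k')` and `¬ up v k'`; so `e⁻¹ k'` is the eastmost upper neighbour of `v`,
`e⁻¹ k' = k`, `k' = e k`.  `cross`, `ul`, `ur`, `dl`, `dr` of `L'` are `cross` (at `e⁻¹ v`, `e⁻¹ k`),
`dr`, `dl`, `ur`, `ul` of `L`.  `cyc`: `e⁻¹` has the same cycles (finite).
Flat: row `r` of `L'` is row `h - r` of `L`, the strip `r` of `L'` is the strip `h - r - 1` of `L`,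
and `h - 1` is even.  `tri`: as for `west` (`up (e v) k ∨ up v (e k)` in the caps: in the proof above
case (3) is `up v k'` or `up (e v) (e⁻¹ k')` by `tri`).
`LM` with `dE' v = dW (e⁻¹ v)`, `dW' v = dE (e⁻¹ v)`, `dU' v k = dN k v`, `dN' v k = dU k v`: the
formulas `E1, E2, W1, W2, U1, U2, N1, N2` for `L'` are
`W1, W2, E1, E2, N1, N2, U1, U2` for `L`. -/
def StmtFlip : Prop :=
  ∀ (K h : ℕ) (V : Type) [Fintype V] (L : Lay V) (f : ℤ → ZMod (3 * 2 ^ K) → V),
    Host K h L f → Host K h (L.flip h) (flipF h f) ∧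
    ∀ (D E F : Type) [Fintype D] [Fintype E] [Fintype F] (M : PM D V E F) (dE dW : V → D)
      (dU dN : V → V → D), LM L M dE dW dU dN →
      LM (L.flip h) M (fun v => dW (L.e.symm v)) (fun v => dE (L.e.symm v))
        (fun v k => dN k v) (fun v k => dU k v)

/-! ## Facts on the host map -/

/-- **LAYAD.** Adjacency.  Proof: by `cov` and `vE, vW, vU, vN, aE, aU` (`α` is an involution).
A dart is determined by its ends: by `cov` and these formulas it is enough that `v ↦ (v, e v)`,
`v ↦ (e v, v)`, `(v, k)`, `(k, v)` do not give the same pair of ends twice: `e (e v) ≠ v`, `e v ≠ v`,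
and `row k = row v + 1` if `up v k`. -/
def StmtLayAd : Prop :=
  ∀ (V D E F : Type) [Fintype V] [Fintype D] [Fintype E] [Fintype F] (L : Lay V)
    (M : PM D V E F) (dE dW : V → D) (dU dN : V → V → D), L.Ax → LM L M dE dW dU dN →
    (∀ u v, Ad M u v ↔ L.adj u v) ∧ (∀ d, tg M d ≠ M.vt d) ∧
    (∀ d e, M.vt d = M.vt e → tg M d = tg M e → d = e)

/-- **SQ.** The squares of the flat part, `r` even: the face of `dE (f r i)` is a square with the
darts `dE (f r i)`, `dU (f r (i+1)) (f (r+1) (i+1))`, `dW (f (r+1) i)`, `dN (f r i) (f (r+1) i)`.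

Proof. `ph` maps these four darts cyclically by `E2`, `U2`, `W2`, `N2` and `Flat.upS` (`N ≥ 6`, so
`i + 1 ≠ i`); not `T3` because the starts `f r i`, `f (r+1) i` are different (rows); the darts of a
face are the cycle of `ph`. -/
def StmtSq : Prop :=
  ∀ (K h : ℕ) (V D E F : Type) [Fintype V] [Fintype D] [Fintype E] [Fintype F] (L : Lay V)
    (f : ℤ → ZMod (3 * 2 ^ K) → V) (M : PM D V E F) (dE dW : V → D) (dU dN : V → V → D),
    Host K h L f → LM L M dE dW dU dN → ∀ (r : ℤ) (i : ZMod (3 * 2 ^ K)), 0 ≤ r → r < h →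
    Even r → T4 M (dE (f r i)) ∧
    ∀ x, M.fc x = M.fc (dE (f r i)) ↔ x = dE (f r i) ∨ x = dU (f r (i + 1)) (f (r + 1) (i + 1)) ∨
      x = dW (f (r + 1) i) ∨ x = dN (f r i) (f (r + 1) i)

/-- **TRI.** The triangles of the flat part, `r` odd: the face of `dE (f r i)` has the darts
`dE (f r i)`, `dU (f r (i+1)) (f (r+1) (i+1))`, `dN (f r i) (f (r+1) (i+1))`, and the face of
`dW (f (r+1) i)` has the darts `dW (f (r+1) i)`, `dN (f r i) (f (r+1) i)`,
`dU (f r i) (f (r+1) (i+1))`.

Proof. As SQ, with `E2`, `U1`, `N2`, and `W2`, `N1`, `U2`; `Flat.upT`. -/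
def StmtTriF : Prop :=
  ∀ (K h : ℕ) (V D E F : Type) [Fintype V] [Fintype D] [Fintype E] [Fintype F] (L : Lay V)
    (f : ℤ → ZMod (3 * 2 ^ K) → V) (M : PM D V E F) (dE dW : V → D) (dU dN : V → V → D),
    Host K h L f → LM L M dE dW dU dN → ∀ (r : ℤ) (i : ZMod (3 * 2 ^ K)), 0 ≤ r → r < h →
    ¬ Even r →
    (T3 M (dE (f r i)) ∧ ∀ x, M.fc x = M.fc (dE (f r i)) ↔ x = dE (f r i) ∨
      x = dU (f r (i + 1)) (f (r + 1) (i + 1)) ∨ x = dN (f r i) (f (r + 1) (i + 1))) ∧
    (T3 M (dW (f (r + 1) i)) ∧ ∀ x, M.fc x = M.fc (dW (f (r + 1) i)) ↔ x = dW (f (r + 1) i) ∨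
      x = dN (f r i) (f (r + 1) i) ∨ x = dU (f r i) (f (r + 1) (i + 1)))

/-- **STRIP.** The strips of the darts, and the classification of the faces.

Proof. The darts of the face of `dU v k` (the face to the west of the edge), from the formulas: if
`up (e⁻¹ v) k`: `dU v k, dN (e⁻¹ v) k, dE (e⁻¹ v)` (by `cross (e⁻¹ v) k`, `¬ up (e⁻¹ v) (e k)`; and
`¬ up v (e⁻¹ k)` by `cross (e⁻¹ v) (e⁻¹ k)`); if `up v (e⁻¹ k)`: `dU v k, dW (e⁻¹ k), dN v (e⁻¹ k)`;
otherwise `dU v k, dW (e⁻¹ k), dN (e⁻¹ v) (e⁻¹ k), dE (e⁻¹ v)` (`west`).  So this face is in the strip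
of `row v`; it is a triangle in the first two cases and a square in the third.  Every dart
`dE v` below the top row, `dW v` above the bottom row and `dN v k` lies on such a face (`ph` of it,
or `ph` of `ph` of it, ... is a `dU`).  The faces of `dE v` in the top row and `dW v` in the bottom
row are the 3-cycles by `top3`, `bot3`, `E1`, `W1`.  In the caps the third case does not occur
(`Host.tri`), in the flat part it occurs exactly in even strips (`upS`, `upT`).  In every case all
vertices of a face are in two consecutive rows. -/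
def StmtStrip : Prop :=
  ∀ (K h : ℕ) (V D E F : Type) [Fintype V] [Fintype D] [Fintype E] [Fintype F] (L : Lay V)
    (f : ℤ → ZMod (3 * 2 ^ K) → V) (M : PM D V E F) (dE dW : V → D) (dU dN : V → V → D),
    Host K h L f → LM L M dE dW dU dN →
    (∀ v, L.row v < L.r1 → InStrip M L.row (dE v) (L.row v)) ∧
    (∀ v, L.r0 < L.row v → InStrip M L.row (dW v) (L.row v - 1)) ∧
    (∀ v k, L.up v k → InStrip M L.row (dU v k) (L.row v) ∧ InStrip M L.row (dN v k) (L.row v)) ∧
    (∀ u v, FA M u v → L.row u ≤ L.row v + 1 ∧ L.row v ≤ L.row u + 1) ∧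
    (∀ d, T3 M d ∨ T4 M d) ∧
    (∀ d, T4 M d ↔ ∃ y : ℤ, 0 ≤ y ∧ y < h ∧ Even y ∧ InStrip M L.row d y)

/-- **HSMALL.** The host map is `Small` and all links are at most `7` (LAYAD, STRIP, SQ may be
assumed).

Proof. `noloop`, `simple`: LAYAD.  `face`: STRIP.  `opp`: the darts of the faces are listed in the
docstring of STRIP; `vt (ph (ph d)) ≠ vt d` by rows and `e v ≠ v`, `e (e v) ≠ v`.
`link v`: the darts that start at `v` are `dE v`, `dW (e⁻¹ v)`, the `dU v k` and the `dN u v`, so
`link v = 2 + a + b + s` where `a`, `b` are the numbers of upper and lower neighbours and `s` is the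
number of darts at `v` with `T4`.  The darts at `v` whose face is above `v` are `dE v` and the
`dU v k`, the other ones are below.  If `row v > h` or `row v < 0`: `s = 0` by STRIP, `a + b ≤ 5`
(`up2` and `dn3`, or `dn2` and `up3`).  If `0 < row v < h` even: `a = 1`, `b = 2`, `s = 2` (`dE v` and
`dU v k`); odd: `a = 2`, `b = 1`, `s = 2` (`dN u v`, `dW (e⁻¹ v)`).  If `row v = 0`: `a = 1`, `b ≤ 2`,
`s = 2`; if `row v = h`: `a ≤ 2`, `b = 1`, `s = 2` (`h - 1` is even). -/
def StmtHSmall : Prop :=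
  ∀ (K h : ℕ) (V D E F : Type) [Fintype V] [Fintype D] [Fintype E] [Fintype F] (L : Lay V)
    (f : ℤ → ZMod (3 * 2 ^ K) → V) (M : PM D V E F) (dE dW : V → D) (dU dN : V → V → D),
    Host K h L f → LM L M dE dW dU dN → Small M ∧ ∀ v, link M v ≤ 7

/-! ## Cones -/

/-- **CONE.** The cone over a set of faces exists.

Proof. Let `φ = ph M`.  Define `φ'` on `DC M I` by the formulas `po, pi, pf, pt` of `IsCone` (for
`pf`: `inr (x, false) ↦ inr (φ⁻¹ x, true)`, where `fc (φ⁻¹ x) = fc x`); it is a permutation: the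
inverse is `inl d ↦ inl (φ⁻¹ d)` if `¬ I (fc d)`, `inl d ↦ inr (d, true)` if `I (fc d)`,
`inr (x, false) ↦ inl (φ⁻¹ x)`, `inr (d, true) ↦ inr (φ d, false)`.  `α'` by `al, ar`,
`σ' = φ' * α'`, `vt'` by `vl, vf, vtr`.
Faces `{f // ¬ I f} ⊕ {d // I (fc d)}`: `inl d ↦ fc d` or `d`; `inr (x, false) ↦ φ⁻¹ x`;
`inr (d, true) ↦ d`; the cycles of `φ'` are the cycles of `φ` in faces outside `I`, and the triples
`inl d, inr (φ d, false), inr (d, true)`.
Edges `E ⊕ {d // I (fc d)}`.
Vertices: `σ' (inl d) = φ' (inl (α d))` is `inl (σ d)` if `¬ I (fc (α d))`, and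
`inr (σ d, false)` if `I (fc (α d))` (note `fc (σ d) = fc (α d)`);
`σ' (inr (x, false)) = φ' (inr (x, true)) = inl x`; so the cycle of `inl d` is the cycle of `d`
under `σ` with `inr (x, false)` inserted before `inl x` if `I (fc x)`.
`σ' (inr (d, true)) = φ' (inr (d, false)) = inr (φ⁻¹ d, true)`; so the new vertex of `q` has the
cycle of all `inr (d, true)`, `fc d = q`.
Connected: a property closed under `σ'`, `α'` that holds somewhere holds for some `inl d` (use `α'`
and `σ'`), hence for all `inl d`, hence for all darts.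
Euler: `|V| + |I| + |F| - |I| + n = |E| + n + 2`, `n = |{d // I (fc d)}|`. -/
def StmtCone : Prop :=
  ∀ (D V E F : Type) [Fintype D] [Fintype V] [Fintype E] [Fintype F] (M : PM D V E F)
    (I : F → Prop), ∃ (E' F' : Type) (_ : Fintype E') (_ : Fintype F')
      (M' : PM (DC M I) (VC V I) E' F'), IsCone M I M'

/-- **CONEAD.** Adjacency and common faces in the cone.

Proof. `Ad`: go through the darts of `M'`.  `FA M' (inl u) (inl v)`: by `fo` and `fi` the face is a
face of `M` outside `I`, or a triple `inl d, inr (φ d, false), inr (d, true)`, whose vertices are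
`vt d`, `vt (φ d)` and the new vertex. -/
def StmtConeAd : Prop :=
  ∀ (D V E F E' F' : Type) [Fintype D] [Fintype V] [Fintype E] [Fintype F] [Fintype E']
    [Fintype F'] (M : PM D V E F) (I : F → Prop) (M' : PM (DC M I) (VC V I) E' F'),
    IsCone M I M' →
    (∀ u v, Ad M' (Sum.inl u) (Sum.inl v) ↔ Ad M u v) ∧
    (∀ q v, (Ad M' (Sum.inr q) (Sum.inl v) ↔ ∃ d, M.fc d = q.1 ∧ M.vt d = v) ∧
      (Ad M' (Sum.inl v) (Sum.inr q) ↔ ∃ d, M.fc d = q.1 ∧ M.vt d = v)) ∧
    (∀ q q', ¬ Ad M' (Sum.inr q) (Sum.inr q')) ∧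
    (∀ u v, FA M' (Sum.inl u) (Sum.inl v) → FA M u v) ∧
    (∀ d, ¬ I (M.fc d) → ∀ O, Touch M' O (Sum.inl d) ↔
      ∃ e, M.fc e = M.fc d ∧ Sum.inl (M.vt e) ∈ O) ∧
    (∀ d (a : I (M.fc d)), ∀ O, Touch M' O (Sum.inl d) ↔
      Sum.inl (M.vt d) ∈ O ∨ Sum.inl (tg M d) ∈ O ∨ Sum.inr ⟨M.fc d, a⟩ ∈ O)

/-- **CONESMALL.** The cone over squares.

Proof. `noloop`, `simple`: a spoke goes from a corner to a new vertex; two spokes with the same ends
are `inr (d, b)`, `inr (d', b)` with `fc d = fc d'`, `vt d = vt d'`; the four darts of a square have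
different starts by `noloop` and `opp`, so `d = d'`.  `face`: faces outside `I` are as in `M`, the
new faces are triangles.  `opp`: new triangles: `vt (ph (ph x)) ≠ vt x` because one of the two is a
new vertex and the other one is not, or (`x = inr (φ d, false)`) by `noloop`.
`link`: for `d` with `vt d = v` and `I (fc d)` (a square, weight `2`) there are now the darts `inl d`
and `inr (d, false)` with weight `1`. -/
def StmtConeSmall : Prop :=
  ∀ (D V E F E' F' : Type) [Fintype D] [Fintype V] [Fintype E] [Fintype F] [Fintype E']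
    [Fintype F'] (M : PM D V E F) (I : F → Prop) (M' : PM (DC M I) (VC V I) E' F'),
    IsCone M I M' → Small M → (∀ d, I (M.fc d) → T4 M d) →
    Small M' ∧ (∀ v, link M' (Sum.inl v) = link M v) ∧
    (∀ d, ¬ I (M.fc d) → (T3 M' (Sum.inl d) ↔ T3 M d) ∧ (T4 M' (Sum.inl d) ↔ T4 M d)) ∧
    (∀ d, I (M.fc d) → T3 M' (Sum.inl d))

/-- **CONESIM.** A cone is simple if the corners of the faces of `I` are different.  Proof: as the
first part of CONESMALL. -/
def StmtConeSim : Prop :=
  ∀ (D V E F E' F' : Type) [Fintype D] [Fintype V] [Fintype E] [Fintype F] [Fintype E']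
    [Fintype F'] (M : PM D V E F) (I : F → Prop) (M' : PM (DC M I) (VC V I) E' F'),
    IsCone M I M' → (∀ d, tg M d ≠ M.vt d) → (∀ d e, M.vt d = M.vt e → tg M d = tg M e → d = e) →
    (∀ d e, I (M.fc d) → M.fc d = M.fc e → M.vt d = M.vt e → d = e) →
    (∀ d, tg M' d ≠ M'.vt d) ∧ (∀ d e, M'.vt d = M'.vt e → tg M' d = tg M' e → d = e)

end Pool.Agent.Helper74.UB
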