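import Pool.Agent.Helper75.VF.H1
import Pool.Agent.Helper28.PL.Goals

/-!
# MP_cd9ac2_co, upper bound `M ≤ 26 / 7`: common definitions

Plane maps are the structure `Helper28.VF.PM`: darts `D`, rotation `σ`, reversal `α`, start vertex
`vt d`, edge `ed d`, face `fc d`.  We think of the face `fc d` as lying on the left of the dart `d`;
`ph M d = σ (α d)` is the next dart on the boundary of this face.
-/

namespace Pool.Agent.Helper74.UB

open Finset Equiv Helper28.VF
open scoped Classical

section maps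
variable {D V E F : Type} [Fintype D] [Fintype V] [Fintype E] [Fintype F] (M : PM D V E F)

/-- The end of a dart. -/
def tg (d : D) : V := M.vt (M.α d)

/-- The next dart of the face on the left. -/
def ph (d : D) : D := M.σ (M.α d)

/-- `u` and `v` are joined by an edge. -/
def Ad (u v : V) : Prop := ∃ d, M.vt d = u ∧ tg M d = v

/-- `u` and `v` lie on a common face. -/
def FA (u v : V) : Prop := ∃ d e, M.fc d = M.fc e ∧ M.vt d = u ∧ M.vt e = v

/-- The face on the left of `d` contains a vertex of `O`. -/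
def Touch (O : Finset V) (d : D) : Prop := ∃ e, M.fc e = M.fc d ∧ M.vt e ∈ O

/-- Boundary dart of `O`: both ends are outside `O` and the face on the left contains a vertex
of `O`. -/
def Bd (O : Finset V) (d : D) : Prop := Touch M O d ∧ M.vt d ∉ O ∧ tg M d ∉ O

/-- The set of all boundary darts of `O`. -/
noncomputable def bd (O : Finset V) : Finset D := univ.filter (Bd M O)

/-- `O` is connected through faces. -/
def FConn (O : Finset V) : Prop :=
  ∀ X ⊆ O, X.Nonempty → X ≠ O → ∃ u ∈ X, ∃ v ∈ O, v ∉ X ∧ FA M u v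

/-- `O` is a component of `Q` with respect to the relation `FA`. -/
structure IsComp (Q O : Finset V) : Prop where
  sub : O ⊆ Q
  ne : O.Nonempty
  conn : FConn M O
  closed : ∀ u ∈ O, ∀ v ∈ Q, FA M u v → v ∈ O

/-- `v` can be reached from `u` by a walk all of whose vertices after `u` are outside `O`. -/
def Rch (O : Finset V) : V → V → Prop := Relation.ReflTransGen fun a b => Ad M a b ∧ b ∉ O

/-- The next boundary dart: turn around the end of `d`, crossing the edges to vertices of `O`:
`(σ ^ m) (α d)` with the smallest `m > 0` such that its end is outside `O`. -/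
noncomputable def nxt (O : Finset V) (d : D) : D :=
  if h : ∃ m : ℕ, 0 < m ∧ tg M ((M.σ ^ m) (M.α d)) ∉ O then
    (M.σ ^ (Nat.find h)) (M.α d) else d

/-- The number of boundary darts of `O` with both ends in `A`. -/
noncomputable def be (O A : Finset V) : ℕ :=
  ((bd M O).filter fun d => M.vt d ∈ A ∧ tg M d ∈ A).card

/-- The number of boundary darts of `O` with exactly one end in `A`. -/
noncomputable def hf (O A : Finset V) : ℕ :=
  ((bd M O).filter fun d => ¬ (M.vt d ∈ A ↔ tg M d ∈ A)).card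

/-- The set of boundary darts of `O` with at least one end outside `A`. -/
noncomputable def nb (O A : Finset V) : Finset D :=
  (bd M O).filter fun d => ¬ (M.vt d ∈ A ∧ tg M d ∈ A)

/-- The face on the left of `d` is a triangle. -/
def T3 (d : D) : Prop := ph M (ph M (ph M d)) = d

/-- The face on the left of `d` is a square. -/
def T4 (d : D) : Prop := ph M (ph M (ph M (ph M d))) = d ∧ ¬ T3 M d

/-- Simple plane maps all of whose faces are triangles and squares. -/
structure Small : Prop where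
  noloop : ∀ d, tg M d ≠ M.vt d
  simple : ∀ d e, M.vt d = M.vt e → tg M d = tg M e → d = e
  face : ∀ d, T3 M d ∨ T4 M d
  opp : ∀ d, M.vt (ph M (ph M d)) ≠ M.vt d

/-- Triangles at `v` count once, squares at `v` count twice. -/
noncomputable def link (v : V) : ℕ :=
  ∑ d ∈ univ.filter (fun d => M.vt d = v), if T3 M d then 1 else 2

/-- `a` and `b` are joined by an edge that lies on a square. -/
def SqE (a b : V) : Prop := ∃ d, T4 M d ∧ ((M.vt d = a ∧ tg M d = b) ∨ (M.vt d = b ∧ tg M d = a))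

/-- A set of disjoint pairs of adjacent vertices of `O`, the edges of which lie on squares. -/
structure Pairs (O : Finset V) (P : Finset (V × V)) : Prop where
  mem : ∀ p ∈ P, p.1 ∈ O ∧ p.2 ∈ O ∧ SqE M p.1 p.2
  disj : ∀ p ∈ P, ∀ q ∈ P, p ≠ q → p.1 ≠ q.1 ∧ p.1 ≠ q.2 ∧ p.2 ≠ q.1 ∧ p.2 ≠ q.2

/-! ## Fires -/

/-- A fire `F s` (`s = 0, 1, …`) that starts at `v₀`; `Q s` is the set of the vertices that are
adjacent to `F s` and protected at time `s + 1`; there are at most `c + s + 1` of them. -/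
structure Fire (c : ℕ) (v₀ : V) (A Q : ℕ → Finset V) : Prop where
  zero : A 0 = {v₀}
  mono : ∀ s, A s ⊆ A (s + 1)
  new : ∀ s, ∀ v ∈ A (s + 1), v ∈ A s ∨ ∃ u ∈ A s, Ad M u v
  spread : ∀ s, ∀ u ∈ A s, ∀ v, Ad M u v → v ∈ A (s + 1) ∨ v ∈ Q s
  adjQ : ∀ s, ∀ v ∈ Q s, ∃ u ∈ A s, Ad M u v
  monoQ : ∀ s, Q s ⊆ Q (s + 1)
  disj : ∀ s t, Disjoint (Q s) (A t)
  card : ∀ s, (Q s).card ≤ c + s + 1
  esc : ∃ v ∈ A 1, v ≠ v₀

/-- A set `X` (a column) that is connected, disjoint from all `Q s` with `s ≤ T`, and has no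
isolated vertex. -/
structure Col (Q : ℕ → Finset V) (T : ℕ) (X : Finset V) : Prop where
  conn : ∀ u ∈ X, ∀ v ∈ X, Relation.ReflTransGen (fun a b => Ad M a b ∧ b ∈ X) u v
  nbr : ∀ u ∈ X, ∃ v ∈ X, Ad M u v
  disj : ∀ s ≤ T, Disjoint (Q s) X

/-- A route to the set `X` for the times `s < T`: a potential `Φ` and, for every `s < T`, a walk
`p s 0, …, p s (n s)` outside the fire `A s` that starts next to a burning vertex `z s` and ends
in `X`.  Either `p s 0` burns at time `s + 1` and the potential decreases, or `p s 0` is protected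
(an event) and the walk, and all the neighbours of its later vertices, are not on fire at
time `s + 1`. -/
structure Route (A Q : ℕ → Finset V) (X : Finset V) (T : ℕ) where
  Φ : ℕ → ℕ
  z : ℕ → V
  n : ℕ → ℕ
  p : ℕ → ℕ → V
  hz : ∀ s < T, z s ∈ A s
  start : ∀ s < T, Ad M (z s) (p s 0)
  walk : ∀ s < T, ∀ i < n s, Ad M (p s i) (p s (i + 1))
  fin : ∀ s < T, p s (n s) ∈ X
  out : ∀ s < T, ∀ i ≤ n s, p s i ∉ A s
  alt : ∀ s < T, (p s 0 ∈ A (s + 1) ∧ Φ (s + 1) < Φ s) ∨
    (p s 0 ∈ Q s ∧ Φ (s + 1) ≤ Φ s ∧ (∀ i ≤ n s, p s i ∉ A (s + 1)) ∧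
      ∀ i, 1 ≤ i → i ≤ n s → ∀ u, Ad M (p s i) u → u ∉ A (s + 1))

variable {M}

/-- There is an event on the route at time `s`. -/
def Route.Ev {A Q : ℕ → Finset V} {X : Finset V} {T : ℕ} (R : Route M A Q X T) (s : ℕ) : Prop :=
  R.p s 0 ∈ Q s

/-- The number of events before time `T'`. -/
noncomputable def Route.ev {A Q : ℕ → Finset V} {X : Finset V} {T : ℕ} (R : Route M A Q X T)
    (T' : ℕ) : ℕ := ((range T').filter fun s => R.Ev s).card

/-- The walks of two routes are, after their first vertices, far from each other. -/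
def Route.Far {A Q : ℕ → Finset V} {X : Finset V} {T : ℕ} (R₁ R₂ : Route M A Q X T) : Prop :=
  ∀ s < T, ∀ i, 1 ≤ i → i ≤ R₁.n s → ∀ j, 1 ≤ j → j ≤ R₂.n s →
    R₁.p s i ≠ R₂.p s j ∧ ¬ Ad M (R₁.p s i) (R₂.p s j)

/-- Harmful time: both routes are blocked by the same component `O` of `Q s`, and at most three
boundary darts of `O` have exactly one end on fire. -/
def Harm {A Q : ℕ → Finset V} {X : Finset V} {T : ℕ} (R₁ R₂ : Route M A Q X T) (s : ℕ) : Prop :=
  ∃ O, IsComp M (Q s) O ∧ R₁.p s 0 ∈ O ∧ R₂.p s 0 ∈ O ∧ hf M O (A s) ≤ 3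

end maps

end Pool.Agent.Helper74.UB
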