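import Pool.Agent.Helper74.UB.Goals2

/-!
# UB, part 3: layered plane maps, the host maps, cones over faces

A layout `L` on `V` has rows `r0 ≤ row v ≤ r1`; each row is one cycle of the permutation `e` (step
to the east); `up v k` says that `v` is joined to `k` in the next row.
-/

namespace Pool.Agent.Helper74.UB

open Finset Equiv Helper28.VF
open scoped Classical

/-- Data of a layered plane graph. -/
structure Lay (V : Type) where
  row : V → ℤ
  e : Perm V
  up : V → V → Prop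
  r0 : ℤ
  r1 : ℤ

/-- Axioms of a layered plane graph. `west`: the face to the west of the edge from `v` up to `k` is
a triangle with base below, a triangle with base above, or a square. `cross`: no crossing
edges.  `ul`, `ur`, `dl`, `dr`: a vertex has exactly one westmost and one eastmost upper
neighbour, and the same for lower neighbours. -/
structure Lay.Ax {V : Type} (L : Lay V) : Prop where
  lt : L.r0 < L.r1
  ne : Nonempty V
  bnd : ∀ v, L.r0 ≤ L.row v ∧ L.row v ≤ L.r1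
  row_e : ∀ v, L.row (L.e v) = L.row v
  cyc : ∀ v w, L.row v = L.row w → ∃ n : ℕ, (L.e)^[n] v = w
  e1 : ∀ v, L.e v ≠ v
  e2 : ∀ v, L.e (L.e v) ≠ v
  up_row : ∀ v k, L.up v k → L.row k = L.row v + 1
  west : ∀ v k, L.up v k →
    L.up (L.e.symm v) k ∨ L.up v (L.e.symm k) ∨ L.up (L.e.symm v) (L.e.symm k)
  cross : ∀ v k, ¬ (L.up v (L.e k) ∧ L.up (L.e v) k)
  ul : ∀ v, L.row v < L.r1 → ∃! k, L.up v k ∧ ¬ L.up v (L.e.symm k)
  ur : ∀ v, L.row v < L.r1 → ∃! k, L.up v k ∧ ¬ L.up v (L.e k)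
  dl : ∀ k, L.r0 < L.row k → ∃! v, L.up v k ∧ ¬ L.up (L.e.symm v) k
  dr : ∀ k, L.r0 < L.row k → ∃! v, L.up v k ∧ ¬ L.up (L.e v) k

/-- Adjacency in the layered graph. -/
def Lay.adj {V : Type} (L : Lay V) (u v : V) : Prop :=
  v = L.e u ∨ u = L.e v ∨ L.up u v ∨ L.up v u

/-- The flat part: rows `0, …, h` are copies `f r` of `ZMod N`; squares between the rows `r`,
`r + 1` for even `r`, triangles for odd `r`. -/
structure Flat {V : Type} (L : Lay V) (N h : ℕ) (f : ℤ → ZMod N → V) : Prop where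
  row : ∀ r i, 0 ≤ r → r ≤ h → L.row (f r i) = r
  surj : ∀ v, 0 ≤ L.row v → L.row v ≤ h → ∃ i, f (L.row v) i = v
  inj : ∀ r i j, 0 ≤ r → r ≤ h → f r i = f r j → i = j
  e : ∀ r i, 0 ≤ r → r ≤ h → L.e (f r i) = f r (i + 1)
  upS : ∀ r i k, 0 ≤ r → r < h → Even r → (L.up (f r i) k ↔ k = f (r + 1) i)
  upT : ∀ r i k, 0 ≤ r → r < h → ¬ Even r →
    (L.up (f r i) k ↔ k = f (r + 1) i ∨ k = f (r + 1) (i + 1))

/-- The host layout: flat part of height `h` and length `3 * 2 ^ K`, and two triangulated caps with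
`K` rows each. -/
structure Host (K h : ℕ) {V : Type} [Fintype V] (L : Lay V)
    (f : ℤ → ZMod (3 * 2 ^ K) → V) : Prop where
  ax : L.Ax
  K1 : 1 ≤ K
  hodd : Odd h
  r0 : L.r0 = -K
  r1 : L.r1 = h + K
  flat : Flat L (3 * 2 ^ K) h f
  top3 : ∀ v, L.row v = L.r1 → L.e (L.e (L.e v)) = v
  bot3 : ∀ v, L.row v = L.r0 → L.e (L.e (L.e v)) = v
  tri : ∀ v k, L.up v k → L.row v < 0 ∨ (h : ℤ) ≤ L.row v →
    L.up (L.e.symm v) k ∨ L.up v (L.e.symm k)
  up2 : ∀ v, (h : ℤ) ≤ L.row v → (univ.filter fun k => L.up v k).card ≤ 2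
  up3 : ∀ v, (univ.filter fun k => L.up v k).card ≤ 3
  dn2 : ∀ v, L.row v ≤ 0 → (univ.filter fun u => L.up u v).card ≤ 2
  dn3 : ∀ v, (univ.filter fun u => L.up u v).card ≤ 3
  cap : (univ.filter fun v => L.row v < 0 ∨ (h : ℤ) < L.row v).card ≤ 2 * (3 * 2 ^ K)

/-! ## The concrete host -/

/-- The level of a row. -/
def lev (h : ℕ) (r : ℤ) : ℕ := (r - h).toNat + (-r).toNat

/-- The vertices of the host: pairs (row, position), `2 ^ lev` divides the position. -/
def HV (K h : ℕ) : Type :=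
  {p : ℤ × ZMod (3 * 2 ^ K) // -(K : ℤ) ≤ p.1 ∧ p.1 ≤ h + K ∧
    (2 : ZMod (3 * 2 ^ K)) ^ (lev h p.1) ∣ p.2}

/-- One step to the east. -/
def hostE (K h : ℕ) : Perm (HV K h) where
  toFun p := ⟨(p.1.1, p.1.2 + 2 ^ (lev h p.1.1)), p.2.1, p.2.2.1, dvd_add p.2.2.2 dvd_rfl⟩
  invFun p := ⟨(p.1.1, p.1.2 - 2 ^ (lev h p.1.1)), p.2.1, p.2.2.1, dvd_sub p.2.2.2 dvd_rfl⟩
  left_inv p := by
    apply Subtype.ext
    apply Prod.ext <;> simp
  right_inv p := by
    apply Subtype.ext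
    apply Prod.ext <;> simp

/-- The edges between consecutive rows of the host: in the caps the position of the lower vertex
minus the position of the upper vertex is `0`, `m` or `2 m`, where `m = 2 ^ (the smaller of the two
levels)`; in the flat part squares (even rows) and triangles (odd rows). -/
def hostUp (K h : ℕ) (p q : HV K h) : Prop :=
  q.1.1 = p.1.1 + 1 ∧
    (if p.1.1 < 0 ∨ (h : ℤ) ≤ p.1.1 then
      ∃ c : ℕ, c ≤ 2 ∧ p.1.2 = q.1.2 + c * 2 ^ (min (lev h p.1.1) (lev h q.1.1))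
    else if Even p.1.1 then q.1.2 = p.1.2
    else q.1.2 = p.1.2 ∨ q.1.2 = p.1.2 + 1)

/-- The host layout. -/
def hostL (K h : ℕ) : Lay (HV K h) where
  row p := p.1.1
  e := hostE K h
  up := hostUp K h
  r0 := -K
  r1 := h + K

/-- The flat vertices of the host. -/
noncomputable def hostF (K h : ℕ) (r : ℤ) (i : ZMod (3 * 2 ^ K)) : HV K h :=
  if c : 0 ≤ r ∧ r ≤ h then
    ⟨(r, i), by
      refine ⟨by omega, by omega, ?_⟩
      have h1 : lev h r = 0 := by unfold lev; omega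
      simp [h1]⟩
  else ⟨(0, 0), by
      refine ⟨by simp, by simp; omega, ?_⟩
      simp⟩

instance (K h : ℕ) : Finite (HV K h) := by
  haveI : NeZero (3 * 2 ^ K) := ⟨by positivity⟩
  have : Finite ((Set.Icc (-(K : ℤ)) (h + K)) × ZMod (3 * 2 ^ K)) := inferInstance
  refine Finite.of_injective
    (fun p : HV K h => ((⟨p.1.1, p.2.1, p.2.2.1⟩, p.1.2) :
      (Set.Icc (-(K : ℤ)) (h + K)) × ZMod (3 * 2 ^ K))) ?_
  intro p q hpq
  simp only [Prod.mk.injEq, Subtype.mk.injEq] at hpq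
  apply Subtype.ext
  exact Prod.ext hpq.1 hpq.2

noncomputable instance (K h : ℕ) : Fintype (HV K h) := Fintype.ofFinite _

/-! ## Layered plane maps -/

/-- `M` is the plane map of the layout `L`; `dE v` is the dart from `v` to `e v`, `dW v` the opposite
dart, `dU v k` the dart from `v` up to `k` and `dN v k` the opposite dart.  The faces of
`dE v`, `dW v`, `dU v k`, `dN v k` are above, below, to the west and to the east of the edge. -/
structure LM {V D E F : Type} [Fintype V] [Fintype D] [Fintype E] [Fintype F] (L : Lay V)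
    (M : PM D V E F) (dE dW : V → D) (dU dN : V → V → D) : Prop where
  vE : ∀ v, M.vt (dE v) = v
  vW : ∀ v, M.vt (dW v) = L.e v
  vU : ∀ v k, L.up v k → M.vt (dU v k) = v
  vN : ∀ v k, L.up v k → M.vt (dN v k) = k
  aE : ∀ v, M.α (dE v) = dW v
  aU : ∀ v k, L.up v k → M.α (dU v k) = dN v k
  cov : ∀ d, (∃ v, d = dE v) ∨ (∃ v, d = dW v) ∨ (∃ v k, L.up v k ∧ d = dU v k) ∨
    ∃ v k, L.up v k ∧ d = dN v k
  E1 : ∀ v, L.row v = L.r1 → ph M (dE v) = dE (L.e v)
  E2 : ∀ v k, L.up (L.e v) k → ¬ L.up (L.e v) (L.e.symm k) → ph M (dE v) = dU (L.e v) k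
  W1 : ∀ v, L.row v = L.r0 → ph M (dW v) = dW (L.e.symm v)
  W2 : ∀ u v, L.up u v → ¬ L.up (L.e u) v → ph M (dW v) = dN u v
  U1 : ∀ v k, L.up v k → L.up (L.e.symm v) k → ph M (dU v k) = dN (L.e.symm v) k
  U2 : ∀ v k, L.up v k → ¬ L.up (L.e.symm v) k → ph M (dU v k) = dW (L.e.symm k)
  N1 : ∀ v k, L.up v k → L.up v (L.e k) → ph M (dN v k) = dU v (L.e k)
  N2 : ∀ v k, L.up v k → ¬ L.up v (L.e k) → ph M (dN v k) = dE v

/-- The darts of the concrete map of a layout: `inl (v, true)` is `dE v`, `inl (v, false)` is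
`dW v`, `inr (⟨(v, k), _⟩, true)` is `dU v k` and `inr (⟨(v, k), _⟩, false)` is `dN v k`. -/
abbrev DL {V : Type} (L : Lay V) : Type := (V × Bool) ⊕ ({p : V × V // L.up p.1 p.2} × Bool)

/-- The start of a dart. -/
def Lay.vt {V : Type} (L : Lay V) : DL L → V
  | Sum.inl (v, true) => v
  | Sum.inl (v, false) => L.e v
  | Sum.inr (p, true) => p.1.1
  | Sum.inr (p, false) => p.1.2

/-- The reversal of darts. -/
def Lay.al {V : Type} (L : Lay V) : Perm (DL L) where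
  toFun
    | Sum.inl (v, b) => Sum.inl (v, !b)
    | Sum.inr (p, b) => Sum.inr (p, !b)
  invFun
    | Sum.inl (v, b) => Sum.inl (v, !b)
    | Sum.inr (p, b) => Sum.inr (p, !b)
  left_inv d := by rcases d with ⟨v, b⟩ | ⟨p, b⟩ <;> simp
  right_inv d := by rcases d with ⟨v, b⟩ | ⟨p, b⟩ <;> simp

/-- `φ` is the face permutation of the layout. -/
structure IsPhi {V : Type} (L : Lay V) (φ : Perm (DL L)) : Prop where
  E1 : ∀ v, L.row v = L.r1 → φ (Sum.inl (v, true)) = Sum.inl (L.e v, true)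
  E2 : ∀ v k, ∀ a : L.up (L.e v) k, ¬ L.up (L.e v) (L.e.symm k) →
    φ (Sum.inl (v, true)) = Sum.inr (⟨(L.e v, k), a⟩, true)
  W1 : ∀ v, L.row v = L.r0 → φ (Sum.inl (v, false)) = Sum.inl (L.e.symm v, false)
  W2 : ∀ u v, ∀ a : L.up u v, ¬ L.up (L.e u) v →
    φ (Sum.inl (v, false)) = Sum.inr (⟨(u, v), a⟩, false)
  U1 : ∀ v k, ∀ a : L.up v k, ∀ b : L.up (L.e.symm v) k,
    φ (Sum.inr (⟨(v, k), a⟩, true)) = Sum.inr (⟨(L.e.symm v, k), b⟩, false)
  U2 : ∀ v k, ∀ a : L.up v k, ¬ L.up (L.e.symm v) k →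
    φ (Sum.inr (⟨(v, k), a⟩, true)) = Sum.inl (L.e.symm k, false)
  N1 : ∀ v k, ∀ a : L.up v k, ∀ b : L.up v (L.e k),
    φ (Sum.inr (⟨(v, k), a⟩, false)) = Sum.inr (⟨(v, L.e k), b⟩, true)
  N2 : ∀ v k, ∀ a : L.up v k, ¬ L.up v (L.e k) →
    φ (Sum.inr (⟨(v, k), a⟩, false)) = Sum.inl (v, true)

/-! ## Strips -/

/-- The face on the left of `d` lies in the strip between the rows `y` and `y + 1`. -/
def InStrip {V D E F : Type} [Fintype V] [Fintype D] [Fintype E] [Fintype F]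
    (M : PM D V E F) (row : V → ℤ) (d : D) (y : ℤ) : Prop :=
  (∀ e, M.fc e = M.fc d → row (M.vt e) = y ∨ row (M.vt e) = y + 1) ∧
  (∃ e, M.fc e = M.fc d ∧ row (M.vt e) = y) ∧ (∃ e, M.fc e = M.fc d ∧ row (M.vt e) = y + 1)

/-! ## The layout turned by 180 degrees -/

/-- The layout turned by 180 degrees. -/
def Lay.flip {V : Type} (L : Lay V) (h : ℕ) : Lay V where
  row v := h - L.row v
  e := L.e.symm
  up v k := L.up k v
  r0 := h - L.r1
  r1 := h - L.r0

/-- The flat vertices of the layout turned by 180 degrees. -/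
def flipF {V : Type} {N : ℕ} (h : ℕ) (f : ℤ → ZMod N → V) (r : ℤ) (i : ZMod N) : V :=
  f (h - r) (-i)

/-! ## Cones -/

/-- Darts of the map with a new vertex in each face of `I`. -/
abbrev DC {V D E F : Type} [Fintype V] [Fintype D] [Fintype E] [Fintype F]
    (M : PM D V E F) (I : F → Prop) : Type := D ⊕ ({d : D // I (M.fc d)} × Bool)

/-- Vertices of the map with a new vertex in each face of `I`. -/
abbrev VC (V : Type) {F : Type} (I : F → Prop) : Type := V ⊕ {q : F // I q}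

/-- `M'` is the map `M` with a new vertex in each face of `I`, joined to all corners of the face.
`inr (d, false)` is the dart from the corner `vt d` of the face of `d` to the new vertex, and
`inr (d, true)` is the opposite dart. -/
structure IsCone {V D E F E' F' : Type} [Fintype V] [Fintype D] [Fintype E] [Fintype F]
    [Fintype E'] [Fintype F'] (M : PM D V E F) (I : F → Prop)
    (M' : PM (DC M I) (VC V I) E' F') : Prop where
  vl : ∀ d, M'.vt (Sum.inl d) = Sum.inl (M.vt d)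
  vf : ∀ d, M'.vt (Sum.inr (d, false)) = Sum.inl (M.vt d.1)
  vtr : ∀ d, M'.vt (Sum.inr (d, true)) = Sum.inr ⟨M.fc d.1, d.2⟩
  al : ∀ d, M'.α (Sum.inl d) = Sum.inl (M.α d)
  ar : ∀ d b, M'.α (Sum.inr (d, b)) = Sum.inr (d, !b)
  po : ∀ d, ¬ I (M.fc d) → ph M' (Sum.inl d) = Sum.inl (ph M d)
  pi : ∀ d, I (M.fc d) → ∀ a : I (M.fc (ph M d)),
    ph M' (Sum.inl d) = Sum.inr (⟨ph M d, a⟩, false)
  pf : ∀ d, ∀ b : I (M.fc d), ∀ a : I (M.fc (ph M d)),
    ph M' (Sum.inr (⟨ph M d, a⟩, false)) = Sum.inr (⟨d, b⟩, true)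
  pt : ∀ d, ph M' (Sum.inr (d, true)) = Sum.inl d.1
  fo : ∀ d, ¬ I (M.fc d) → ∀ x, M'.fc x = M'.fc (Sum.inl d) ↔
    ∃ e, x = Sum.inl e ∧ M.fc e = M.fc d
  fi : ∀ d, ∀ b : I (M.fc d), ∀ a : I (M.fc (ph M d)), ∀ x, M'.fc x = M'.fc (Sum.inl d) ↔
    x = Sum.inl d ∨ x = Sum.inr (⟨ph M d, a⟩, false) ∨ x = Sum.inr (⟨d, b⟩, true)

end Pool.Agent.Helper74.UB
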