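import Pool.Agent.Helper74.UB.Goals3

/-!
# UB, part 4: definitions for the geometry of the host and for the routes

`V' = VC V I = V ⊕ {q // I q}` are the vertices of the cone `M'` of the host map `M`; `inl v` are the
host vertices.
-/

namespace Pool.Agent.Helper74.UB

open Finset Equiv Helper28.VF
open scoped Classical

/-- The highest row of a host vertex in `B` (at least `y`). -/
noncomputable def tp {V J : Type} [Fintype V] (row : V → ℤ) (y : ℤ) (B : Finset (V ⊕ J)) : ℤ :=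
  (insert y ((univ.filter fun v => Sum.inl v ∈ B).image row)).max' (insert_nonempty _ _)

/-- The lowest row of a host vertex in `B` (at most `y`). -/
noncomputable def bt {V J : Type} [Fintype V] (row : V → ℤ) (y : ℤ) (B : Finset (V ⊕ J)) : ℤ :=
  (insert y ((univ.filter fun v => Sum.inl v ∈ B).image row)).min' (insert_nonempty _ _)

/-- The number of host vertices of `O` in the row `r`. -/
noncomputable def nr {V J : Type} [Fintype V] (row : V → ℤ) (O : Finset (V ⊕ J)) (r : ℤ) : ℕ :=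
  (univ.filter fun v => Sum.inl v ∈ O ∧ row v = r).card

/-- The configuration above a fire `A` whose top row is `t` and that is blocked there: `Q` are the
protected vertices next to `A`, `O` is a part of `Q` that is closed under `FA`. -/
structure TopH (K h : ℕ) {V D E F E' F' : Type} [Fintype V] [Fintype D] [Fintype E] [Fintype F]
    [Fintype E'] [Fintype F'] (L : Lay V) (f : ℤ → ZMod (3 * 2 ^ K) → V) (M : PM D V E F)
    (dE dW : V → D) (dU dN : V → V → D) (I : F → Prop) (M' : PM (DC M I) (VC V I) E' F')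
    (O Q A : Finset (VC V I)) (t : ℤ) : Prop where
  host : Host K h L f
  lm : LM L M dE dW dU dN
  cone : IsCone M I M'
  t0 : 0 ≤ t
  t2 : t + 2 ≤ h
  sq : ∀ d, I (M.fc d) → T4 M d ∧ ∃ y, y ≤ t ∧ InStrip M L.row d y
  cen : ∀ q, Sum.inr q ∈ A
  sub : O ⊆ Q
  dis : Disjoint Q A
  closed : ∀ u ∈ O, ∀ v ∈ Q, FA M' u v → v ∈ O
  rA : ∀ v, Sum.inl v ∈ A → L.row v ≤ t
  rQ : ∀ v, Sum.inl v ∈ Q → L.row v ≤ t + 1
  ev : ∀ u ∈ A, ∀ v, Ad M' u (Sum.inl v) → L.row v = t + 1 → Sum.inl v ∈ Q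
  hd : ∃ x, Sum.inl (f t x) ∈ A ∧ Sum.inl (f (t + 1) x) ∈ O
  col : ∃ x, ∀ r, 0 ≤ r → r ≤ h → Sum.inl (f r x) ∉ O

/-- Boundary darts in the strips `t` and `t + 1` with an end outside `A`, and pairs near row `t + 1`;
together at least `nr O (t + 1) + 6`. -/
def TopC {V D E F E' F' : Type} [Fintype V] [Fintype D] [Fintype E] [Fintype F]
    [Fintype E'] [Fintype F'] (row : V → ℤ) (M : PM D V E F) (I : F → Prop)
    (M' : PM (DC M I) (VC V I) E' F') (O A : Finset (VC V I)) (t : ℤ) : Prop :=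
  ∃ (S : Finset D) (P : Finset (V × V)),
    (∀ d ∈ S, Sum.inl d ∈ nb M' O A ∧ (InStrip M row d t ∨ InStrip M row d (t + 1))) ∧
    (∀ p ∈ P, Sum.inl p.1 ∈ O ∧ Sum.inl p.2 ∈ O ∧ SqE M' (Sum.inl p.1) (Sum.inl p.2)) ∧
    (Even t → ∀ p ∈ P, (row p.1 = t ∨ row p.1 = t + 1) ∧ (row p.2 = t ∨ row p.2 = t + 1)) ∧
    (¬ Even t → ∀ p ∈ P, row p.1 = t + 1 ∧ row p.2 = t + 1) ∧
    (∀ p ∈ P, ∀ q ∈ P, p ≠ q → p.1 ≠ q.1 ∧ p.1 ≠ q.2 ∧ p.2 ≠ q.1 ∧ p.2 ≠ q.2) ∧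
    nr row O (t + 1) + 6 ≤ S.card + P.card

/-- The general situation: host, cone over at most one square, a fire with a typical start: (A) a
host vertex in row `y0 = y1`, no cone, `c ≤ 1`, or (B) the new vertex in a square between the rows
`y0` and `y1 = y0 + 1`, `c ≤ 2`, and `Q 0` is not empty if `c = 2`. -/
structure Base (K h : ℕ) {V D E F E' F' : Type} [Fintype V] [Fintype D] [Fintype E] [Fintype F]
    [Fintype E'] [Fintype F'] (L : Lay V) (f : ℤ → ZMod (3 * 2 ^ K) → V) (M : PM D V E F)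
    (dE dW : V → D) (dU dN : V → V → D) (I : F → Prop) (M' : PM (DC M I) (VC V I) E' F')
    (y0 y1 : ℤ) (c : ℕ) (v₀ : VC V I) (A Q : ℕ → Finset (VC V I)) : Prop where
  host : Host K h L f
  lm : LM L M dE dW dU dN
  cone : IsCone M I M'
  fire : Fire M' c v₀ A Q
  rng : 0 ≤ y0 ∧ y1 ≤ h
  start : (y1 = y0 ∧ (∀ q, ¬ I q) ∧ (∃ v, v₀ = Sum.inl v ∧ L.row v = y0) ∧ c ≤ 1) ∨
    (y1 = y0 + 1 ∧ Even y0 ∧ (∃ j, ∀ q, I q ↔ q = M.fc (dE (f y0 j))) ∧ (∃ q, v₀ = Sum.inr q) ∧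
      c ≤ 2 ∧ (c = 2 → (Q 0).Nonempty))

/-- The column `x` with the vertices `w₁` above and `w₂` below it. -/
noncomputable def colX {V F : Type} (I : F → Prop) (h : ℕ) {N : ℕ} (f : ℤ → ZMod N → V)
    (w₁ w₂ : V) (x : ZMod N) : Finset (VC V I) :=
  insert (Sum.inl w₁) (insert (Sum.inl w₂) ((Finset.Icc (0 : ℤ) h).image fun r => Sum.inl (f r x)))

/-- The situation with two routes to a column. -/
structure Sit (K h : ℕ) {V D E F E' F' : Type} [Fintype V] [Fintype D] [Fintype E] [Fintype F]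
    [Fintype E'] [Fintype F'] (L : Lay V) (f : ℤ → ZMod (3 * 2 ^ K) → V) (M : PM D V E F)
    (dE dW : V → D) (dU dN : V → V → D) (I : F → Prop) (M' : PM (DC M I) (VC V I) E' F')
    (y0 y1 : ℤ) (c : ℕ) (v₀ : VC V I) (A Q : ℕ → Finset (VC V I)) (X : Finset (VC V I)) (T : ℕ)
    (R₁ R₂ : Route M' A Q X T) : Prop where
  base : Base K h L f M dE dW dU dN I M' y0 y1 c v₀ A Q
  col : Col M' Q T X
  xx : ∃ x, ∀ r, 0 ≤ r → r ≤ h → Sum.inl (f r x) ∈ X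
  far : R₁.Far R₂
  Φ1 : ∀ s ≤ T, tp L.row y0 (A s) < h → (R₁.Φ s : ℤ) = 2 * K + 2 + h - tp L.row y0 (A s)
  Φ2 : ∀ s ≤ T, 0 < bt L.row y1 (A s) → (R₂.Φ s : ℤ) = 2 * K + 2 + bt L.row y1 (A s)
  e1 : ∀ s < T, R₁.p s 0 ∈ Q s → tp L.row y0 (A s) < h →
    tp L.row y0 (A (s + 1)) = tp L.row y0 (A s) ∧
    ∃ i, R₁.p s 0 = Sum.inl (f (tp L.row y0 (A s) + 1) i) ∧
      ((∀ q, ¬ I q) ∨ 1 ≤ s → Sum.inl (f (tp L.row y0 (A s)) i) ∈ A s)
  e2 : ∀ s < T, R₂.p s 0 ∈ Q s → 0 < bt L.row y1 (A s) →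
    bt L.row y1 (A (s + 1)) = bt L.row y1 (A s) ∧
    ∃ i, R₂.p s 0 = Sum.inl (f (bt L.row y1 (A s) - 1) i) ∧
      ((∀ q, ¬ I q) ∨ 1 ≤ s → Sum.inl (f (bt L.row y1 (A s)) i) ∈ A s)
  r1 : ∀ s < T, ∀ i, 1 ≤ i → i ≤ R₁.n s → ∃ v, R₁.p s i = Sum.inl v ∧
    min (tp L.row y0 (A s) + 2) (h + 1) ≤ L.row v
  r2 : ∀ s < T, ∀ i, 1 ≤ i → i ≤ R₂.n s → ∃ v, R₂.p s i = Sum.inl v ∧
    L.row v ≤ max (bt L.row y1 (A s) - 2) (-1)
  h1 : ∀ s < T, R₁.p s 0 ∈ Q s → ∃ v, R₁.p s 0 = Sum.inl v ∧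
    min (tp L.row y0 (A s) + 1) (h + 1) ≤ L.row v
  h2 : ∀ s < T, R₂.p s 0 ∈ Q s → ∃ v, R₂.p s 0 = Sum.inl v ∧
    L.row v ≤ max (bt L.row y1 (A s) - 1) (-1)

end Pool.Agent.Helper74.UB
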