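import Pool.Agent.Helper74.UB.Goals4
import Pool.Agent.Helper34.FF.Goals1
import Pool.Agent.Helper34.FF.Rot

/-!
# UB, part 5: the gadget graph and the firefighter process

The process (`burn`, `prot`, `Legal`, `saved`, `sn`, `rho`) is that of `Pool.Agent.Helper34.FF`.
-/

namespace Pool.Agent.Helper74.UB

open Finset Equiv Helper28.VF
open scoped Classical

section
variable {D V E F : Type} [Fintype D] [Fintype V] [Fintype E] [Fintype F] (M : PM D V E F)

/-- The face `q` is a square. -/
def IsSq (q : F) : Prop := ∃ d, M.fc d = q ∧ T4 M d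

/-- The vertices of the gadget graph: host vertices, a centre for each square, a leaf for each
corner of a square (given by the dart of the square that starts there). -/
abbrev GV : Type := (V ⊕ {q : F // IsSq M q}) ⊕ {d : D // T4 M d}

/-- The edges of the gadget graph: edges of the host, and each leaf is joined to its corner and
to the centre of its square. -/
def grel : GV M → GV M → Prop
  | Sum.inl (Sum.inl u), Sum.inl (Sum.inl v) => Ad M u v
  | Sum.inr d, Sum.inl (Sum.inl v) => M.vt d.1 = v
  | Sum.inr d, Sum.inl (Sum.inr q) => M.fc d.1 = q.1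
  | _, _ => False

/-- The gadget graph. -/
def GS : SimpleGraph (GV M) := SimpleGraph.fromRel (grel M)

/-- Typical starts: all the host vertices involved are in rows between `lo` and `hi`. -/
def Typ (row : V → ℤ) (lo hi : ℤ) : GV M → Prop
  | Sum.inl (Sum.inl v) => lo ≤ row v ∧ row v ≤ hi
  | Sum.inl (Sum.inr q) => ∀ e, M.fc e = q.1 → lo ≤ row (M.vt e) ∧ row (M.vt e) ≤ hi
  | Sum.inr d => ∀ e, M.fc e = M.fc d.1 → lo ≤ row (M.vt e) ∧ row (M.vt e) ≤ hi

/-- The fire for given protected sets `R s` (vertices protected at the latest at time `s + 1`). -/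
noncomputable def fA (R : ℕ → Finset V) (v₀ : V) : ℕ → Finset V
  | 0 => {v₀}
  | s + 1 => fA R v₀ s ∪ univ.filter fun v => v ∉ R s ∧ ∃ u ∈ fA R v₀ s, Ad M u v

/-- The protected vertices next to the fire. -/
noncomputable def fQ (R : ℕ → Finset V) (v₀ : V) (s : ℕ) : Finset V :=
  (R s).filter fun v => ∃ u ∈ fA M R v₀ s, Ad M u v

end

/-- Planarity by rotation systems (the definition used in the hand-ins of this problem). -/
def PlanarR {V : Type} (G : SimpleGraph V) : Prop :=
  ∃ H : SimpleGraph V, G ≤ H ∧ H.Connected ∧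
    ∃ σ : Equiv.Perm H.Dart, Pool.Agent.Helper34.FF.Rot.IsRotation H σ ∧
      Nat.card V + Pool.Agent.Helper34.FF.Rot.numFaces H σ = Nat.card H.edgeSet + 2

end Pool.Agent.Helper74.UB
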