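import Pool.Agent.Helper74.UB.Goals5
import Pool.Agent.Helper42.UB.Face
import Pool.Agent.Helper79.UB.Nxt
import Pool.Agent.Helper17.UB.Sol
import Pool.Agent.Helper94.UB.Bdex
import Pool.Agent.Helper56.UB.Half
import Pool.Agent.Helper82.UB.Arc
import Pool.Agent.Helper81.UB.Loss
import Pool.Agent.Helper3.UB.One
import Pool.Agent.Helper87.UB.W
import Pool.Agent.Helper90.UB.Part
import Pool.Agent.Helper5.UB.Firecon
import Pool.Agent.Helper89.UB.Grow
import Pool.Agent.Helper35.UB.Her
import Pool.Agent.Helper15.UB.Evt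
import Pool.Agent.Helper35.UB.Exit
import Pool.Agent.Helper61.UB.Tail
import Pool.Agent.Helper39.UB.P1
import Pool.Agent.Helper61.UB.K2
import Pool.Agent.Helper13.UB.P2
import Pool.Agent.Helper93.UB.Evb
import Pool.Agent.Helper67.UB.Tot
import Pool.Agent.Helper65.UB.Time
import Pool.Agent.Helper51.UB.Arcx
import Pool.Agent.Helper27.UB.Phi
import Pool.Agent.Helper49.UB.Phiv
import Pool.Agent.Helper77.UB.Phif
import Pool.Agent.Helper34.UB.Laypm
import Pool.Agent.Helper16.UB.Hostax
import Pool.Agent.Helper10.UB.Hostflat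
import Pool.Agent.Helper51.UB.Hostrest
import Pool.Agent.Helper11.UB.Hostcap
import Pool.Agent.Helper2.UB.Flip
import Pool.Agent.Helper69.UB.Layad
import Pool.Agent.Helper87.UB.Sq
import Pool.Agent.Helper46.UB.Trif
import Pool.Agent.Helper50.UB.Strip
import Pool.Agent.Helper75.UB.Hsmall
import Pool.Agent.Helper73.UB.Cone
import Pool.Agent.Helper72.UB.Conead
import Pool.Agent.Helper48.UB.Conesmall
import Pool.Agent.Helper12.UB.Conesim
import Pool.Agent.Helper4.UB.Tpf
import Pool.Agent.Helper86.UB.Capd
import Pool.Agent.Helper35.UB.Pot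
import Pool.Agent.Helper35.UB.Basef
import Pool.Agent.Helper89.UB.Flipb
import Pool.Agent.Helper22.UB.Routet
import Pool.Agent.Helper17.UB.Routeb
import Pool.Agent.Helper51.UB.Colx
import Pool.Agent.Helper90.UB.Sit
import Pool.Agent.Helper38.UB.Tops
import Pool.Agent.Helper86.UB.Rowsc
import Pool.Agent.Helper40.UB.Intc
import Pool.Agent.Helper34.UB.Geo
import Pool.Agent.Helper15.UB.Num
import Pool.Agent.Helper89.UB.Bonus
import Pool.Agent.Helper3.UB.Corn
import Pool.Agent.Helper95.UB.Fine
import Pool.Agent.Helper95.UB.Crude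
import Pool.Agent.Helper61.UB.Endt
import Pool.Agent.Helper76.UB.Ht
import Pool.Agent.Helper1.UB.PB
import Pool.Agent.Helper1.UB.MkF
import Pool.Agent.Helper12.UB.Reda
import Pool.Agent.Helper76.UB.Redb
import Pool.Agent.Helper35.UB.Burnt
import Pool.Agent.Helper35.UB.Saved
import Pool.Agent.Helper72.UB.Avg
import Pool.Agent.Helper76.UB.Atyp
import Pool.Agent.Helper1.UB.Rho
import Pool.Agent.Helper1.UB.Lim
import Pool.Agent.Helper76.UB.Rot
import Pool.Agent.Helper76.UB.Plang
import Pool.Agent.Helper7.UB.Topt
import Pool.Agent.Helper59.UB.Badx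
import Pool.Agent.Helper97.UB.Cnt

/-!
# UB: final assembly
-/

namespace Pool.Agent.Helper74.UB

open Finset Equiv Helper28.VF
open Pool.Agent.Helper34.FF (burn prot Legal saved sn rho)
open scoped Classical

/-- The concrete host is a host. -/
theorem host_of (h1 : StmtHostAx) (h2 : StmtHostFlat) (h3 : StmtHostRest) (h4 : StmtHostCap)
    (K h : ℕ) (hK : 1 ≤ K) (hh : Odd h) : Host K h (hostL K h) (hostF K h) := by
  obtain ⟨a, b, c, d, e, g, i⟩ := h3 K h hK hh
  exact
    { ax := h1 K h hK hh
      K1 := hK
      hodd := hh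
      r0 := rfl
      r1 := rfl
      flat := h2 K h hK hh
      top3 := a
      bot3 := b
      tri := c
      up2 := d
      up3 := e
      dn2 := g
      dn3 := i
      cap := h4 K h hK hh }

theorem final_of (h1 : StmtHostAx) (h2 : StmtHostFlat) (h3 : StmtHostRest) (h4 : StmtHostCap)
    (hPM : StmtLayPM) (hS : StmtHSmall) (hAvg : StmtAvg) (hRho : StmtRho) (hLim : StmtLim)
    (hP : StmtPlanG) :
    ∀ η : ℝ, 0 < η → ∃ (V : Type) (_ : Fintype V) (G : SimpleGraph V), 2 ≤ Fintype.card V ∧
      PlanarR G ∧ 2 * (G.edgeSet.ncard : ℝ) / (Fintype.card V : ℝ) ≤ 26 / 7 + η ∧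
      rho 1 G < η := by
  intro η hη
  obtain ⟨K, hK, h, hh, hl1, hl2⟩ := hLim η hη
  have hH := host_of h1 h2 h3 h4 K h hK hh
  obtain ⟨E, F, iE, iF, M, dE, dW, dU, dN, hM⟩ := hPM (HV K h) (hostL K h) hH.ax
  obtain ⟨ha, hc⟩ := hAvg K h (HV K h) _ E F _ _ M dE dW dU dN hH hM
  have hr := hRho K h (HV K h) _ E F _ _ M dE dW dU dN hH hM
  refine ⟨GV M, inferInstance, GS M, ?_, hP _ _ _ _ M (hS K h _ _ _ _ _ _ M dE dW dU dN hH hM).1,
    ?_, ?_⟩
  · have h5 : 1 ≤ 2 ^ K := Nat.one_le_two_pow
    have h6 : 1 ≤ h + 1 := by omega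
    have h7 : 3 ≤ 3 * 2 ^ K * (h + 1) := by nlinarith
    omega
  · linarith
  · linarith

/-- The assembly of all parts. -/
theorem final_pre (topt : StmtTopT) (badx : StmtBadX) (cnt : StmtCnt) :
    ∀ η : ℝ, 0 < η → ∃ (V : Type) (_ : Fintype V) (G : SimpleGraph V), 2 ≤ Fintype.card V ∧
      PlanarR G ∧ 2 * (G.edgeSet.ncard : ℝ) / (Fintype.card V : ℝ) ≤ 26 / 7 + η ∧
      rho 1 G < η := by
  have face := Helper42.UB.face
  have nxt := Helper79.UB.nxt
  have sol := Helper17.UB.sol face nxt
  have bdex := Helper94.UB.bdex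
  have half := Helper56.UB.half sol nxt
  have arc := Helper82.UB.arc sol nxt
  have w := Helper87.UB.w Helper81.UB.loss Helper3.UB.one
  have part := Helper90.UB.part
  have firecon := Helper5.UB.firecon
  have grow := Helper89.UB.grow
  have her := Helper35.UB.her part
  have evt := Helper15.UB.evt
  have exit' := Helper35.UB.exit bdex
  have tail := Helper61.UB.tail
  have p1 := Helper39.UB.p1 bdex half firecon evt exit' tail
  have k2 := Helper61.UB.k2 part her evt p1
  have p2 := Helper13.UB.p2 nxt sol bdex firecon evt exit' tail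
  have evb := Helper93.UB.evb k2 grow p2
  have tot := Helper67.UB.tot part evt evb
  have time := Helper65.UB.time
  have arcx := Helper51.UB.arcx evt exit' tail arc nxt
  have laypm := Helper34.UB.laypm Helper27.UB.phi Helper49.UB.phiv Helper77.UB.phif
  have flip := Helper2.UB.flip
  have layad := Helper69.UB.layad
  have sq := Helper87.UB.sq
  have trif := Helper46.UB.trif
  have strip := Helper50.UB.strip
  have hsmall := Helper75.UB.hsmall layad strip
  have cone := Helper73.UB.cone
  have conead := Helper72.UB.conead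
  have conesmall := Helper48.UB.conesmall
  have tpf := Helper4.UB.tpf
  have pot := Helper35.UB.pot Helper86.UB.capd
  have basef := Helper35.UB.basef conesmall hsmall conead strip tpf
  have flipb := Helper89.UB.flipb flip sq
  have routet := Helper22.UB.routet pot basef sq conead layad tpf
  have routeb := Helper17.UB.routeb routet flipb tpf
  have colx := Helper51.UB.colx layad conead
  have sit := Helper90.UB.sit routet routeb colx basef
  have tops := Helper38.UB.tops sq trif strip conead conesmall hsmall layad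
  have rowsc := Helper86.UB.rowsc basef
  have intc := Helper40.UB.intc arcx basef strip sq conead
  have geo := Helper34.UB.geo tops topt intc basef flip tpf
  have num := Helper15.UB.num geo tot time w basef
  have bonus := Helper89.UB.bonus conead
  have corn := Helper3.UB.corn sq conead basef tpf
  have fine := Helper95.UB.fine num rowsc bonus corn basef tpf part
  have crude := Helper95.UB.crude intc rowsc tot time w basef tpf
  have endt := Helper61.UB.endt fine crude tot time w basef
  have ht := Helper76.UB.ht sit endt layad conead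
  have pb := Helper1.UB.pb
  have mkf := Helper1.UB.mkF
  have reda := Helper12.UB.reda pb mkf conead layad
  have redb := Helper76.UB.redb pb mkf conead layad sq
  have burnt := Helper35.UB.burnt reda redb badx ht cone strip sq pb
  have saved := Helper35.UB.saved burnt pb hsmall
  have avg := Helper72.UB.avg cnt layad
  have atyp := Helper76.UB.atyp strip hsmall
  have rho := Helper1.UB.rho saved atyp avg
  have plang := Helper76.UB.plang cone conead conesmall Helper12.UB.conesim
  exact final_of Helper16.UB.hostax Helper10.UB.hostflat Helper51.UB.hostrest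
    Helper11.UB.hostcap laypm hsmall avg rho Helper1.UB.lim plang

/-- The main theorem on the graphs `G*`. -/
theorem final : ∀ η : ℝ, 0 < η → ∃ (V : Type) (_ : Fintype V) (G : SimpleGraph V),
      2 ≤ Fintype.card V ∧
      PlanarR G ∧ 2 * (G.edgeSet.ncard : ℝ) / (Fintype.card V : ℝ) ≤ 26 / 7 + η ∧
      rho 1 G < η :=
  final_pre
    (Helper7.UB.topt Helper87.UB.sq Helper46.UB.trif Helper50.UB.strip Helper72.UB.conead
      Helper48.UB.conesmall (Helper75.UB.hsmall Helper69.UB.layad Helper50.UB.strip)
      Helper69.UB.layad)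
    Helper59.UB.badx (Helper97.UB.cnt Helper50.UB.strip Helper87.UB.sq)

end Pool.Agent.Helper74.UB
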