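import Pool.Agent.Helper74.UB.Defs

/-!
# UB, part 1: boundary darts of a set of vertices in a plane map

Notation for the docstrings: `M : PM D V E F` a plane map, `out y` the darts `x` with `vt x = y`
(one cycle of `σ`), `tg x` the end of `x`, `ph x = σ (α x)` the next dart of the face on the left.
Facts used all the time: `vt (σ x) = vt x`, `vt (ph x) = tg x`, `fc (ph x) = fc x`, hence
`fc (σ x) = fc (α x)` (put `x = α y`), i.e. the face between two consecutive darts `x`, `σ x` of
`out y` is `fc (σ x) = fc (α x)`.  A vertex of the face of `x` is a `vt e` with `fc e = fc x`; in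
particular `vt x` and `tg x = vt (ph x)` are vertices of the face of `x`.
-/

namespace Pool.Agent.Helper74.UB

open Finset Equiv Helper28.VF
open scoped Classical

/-- **FACE.** A mod 2 cycle bounds a set of faces.

Proof: apply `Helper75.VF.stmtH1` with `K = ZMod 2` and `s = t = m` (the third hypothesis is a sum
of terms `m d + m (α d) = 2 * m d = 0`): `l (σ d) = l d + m d`, `l (α d) = l d + m d`.  Then
`l (ph d) = l (σ (α d)) = l (α d) + m (α d) = l d + 2 * m d = l d`, so `l` is constant on the
cycles of `σ * α`, i.e. `w = l` works (use `M.fc_iff`). -/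
def StmtFace : Prop :=
  ∀ (D V E F : Type) [Fintype D] [Fintype V] [Fintype E] [Fintype F] (M : PM D V E F)
    (m : D → ZMod 2), (∀ d, m (M.α d) = m d) →
    (∀ v, ∑ d ∈ univ.filter (fun d => M.vt d = v), m d = 0) →
    ∃ w : D → ZMod 2, (∀ d e, M.fc d = M.fc e → w d = w e) ∧ ∀ d, w d + w (M.α d) = m d

/-- **NXT.** Properties of the next boundary dart.

Proof: let `vt d ∉ O`.  The dart `α d ∈ out (tg d)` has the end `vt d ∉ O`, so some `m > 0` (e.g.
the order of `σ`) has `tg (σ^m (α d)) ∉ O`; let `m` be minimal.  (1), (2) are clear.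
(3) If `m = 1` then `nxt d = σ (α d) = ph d` has the face of `d`.  If `m ≥ 2` then
`x = σ^(m-1) (α d)` has `tg x ∈ O` and the face of `σ x = nxt d` is `fc (α x)`, which contains
`vt (α x) = tg x ∈ O`; so `nxt d` is touched.
(4) Let `nxt d = nxt e = g`, with `m`, `m'`.  Then `α d = σ^(-m) g`, `α e = σ^(-m') g`.  If
`m < m'` then `α d = σ^(m'-m) (α e)` with `0 < m' - m < m'` and `tg (α d) = vt d ∉ O`, against
the minimality of `m'`.  Same for `m' < m`.  So `m = m'`, `d = e`.
(5) by (3), (4) `nxt` is an injective, hence bijective, map of the finite set `bd O` to itself. -/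
def StmtNxt : Prop :=
  ∀ (D V E F : Type) [Fintype D] [Fintype V] [Fintype E] [Fintype F] (M : PM D V E F)
    (O : Finset V),
    (∀ d, M.vt d ∉ O → M.vt (nxt M O d) = tg M d ∧ tg M (nxt M O d) ∉ O) ∧
    (∀ d ∈ bd M O, nxt M O d ∈ bd M O) ∧
    (∀ d e, M.vt d ∉ O → M.vt e ∉ O → nxt M O d = nxt M O e → d = e) ∧
    (∀ e ∈ bd M O, ∃ d ∈ bd M O, nxt M O d = e)

/-- **SOL** (single orbit lemma). All the boundary darts of a face-connected set `O` that start
in one component of the complement of `O` form one cycle of `nxt`.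

Proof: let `ω ⊆ bd O` be the set of all `nxt^[n] d` (a cycle of the permutation `nxt` of `bd O`, by
NXT; so `nxt` is a bijection of `ω`).  Put `m x = [x ∈ ω] + [α x ∈ ω]` in `ZMod 2`.  For every `y`
the sum of `m x` over `out y` is `#{x ∈ ω, vt x = y} + #{x ∈ ω, tg x = y}`, and `nxt` is a
bijection from the second set to the first, so the sum is `0`.  By FACE there is `w`, constant on
faces, with `w x + w (α x) = m x`.
(A) All touched faces have the same value of `w`, call it `c`: for `p ∈ O` and `x ∈ out p` neither
`x` nor `α x` is in `bd O`, so `m x = 0` and `w (σ x) = w (α x) = w x`; so `w` is constant on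
`out p`, i.e. on the faces at `p`.  If `FA u v` the faces at `u` and at `v` have a common face; so
by `FConn` the value is the same for all `p ∈ O` (take for `X` the set of the `p ∈ O` with the
value of one fixed element of `O`).
(B) For `y ∉ O` let `S y = {x ∈ out y, tg x ∉ O}`; for `x ∈ S y` let
`x⁺ = nxt (α x) = σ^k x`, `k > 0` minimal with end outside `O`; `x ↦ x⁺` permutes `S y` cyclically
(it is the first return map of `σ` to `S y`).
If `k = 1` then `fc (x⁺) = fc (σ x) = fc (α x)`; if `k ≥ 2` then the faces of `α x` (which is the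
face of `σ x`, `tg (σ x) ∈ O`) and of `x⁺` are touched.  So `α x ∈ bd O ↔ x⁺ ∈ bd O`; in this case
`α x ∈ ω ↔ x⁺ ∈ ω`; in the other case `k = 1` and `w (α x) = w (x⁺)`.
Let `P x` be: `(x ∈ bd O → x ∈ ω) ∧ (x ∉ bd O → w x = c + 1)` (for a dart `x` with both ends
outside `O`; such a dart is in `bd O` iff it is touched, and then `w x = c`).
`P x ↔ P (α x)`: if both `x` and `α x` are in `bd O` then `m x = c + c = 0`, so
`x ∈ ω ↔ α x ∈ ω`; if `x ∈ bd O`, `α x ∉ bd O` then `w (α x) = c + m x = c + [x ∈ ω]`; the third
case is symmetric; if none is in `bd O` then `m x = 0` and `w x = w (α x)`.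
`P (α x) ↔ P (x⁺)` by the above.  So `P x ↔ P (x⁺)` for `x ∈ S y`, and `P` is constant on `S y`.
(C) Let `Good y` be: `P x` for all `x ∈ S y`.  `P d` holds (`d ∈ ω`), so `Good (vt d)`.  If
`Good y`, `y' ∉ O` and `Ad y y'` by the dart `x` then `P x`, so `P (α x)`, `α x ∈ S y'`, so
`Good y'`.  By `Rch` we get `Good (vt e)`, so `P e`, so `e ∈ ω`. -/
def StmtSol : Prop :=
  ∀ (D V E F : Type) [Fintype D] [Fintype V] [Fintype E] [Fintype F] (M : PM D V E F)
    (O : Finset V), FConn M O → O.Nonempty → ∀ d ∈ bd M O, ∀ e ∈ bd M O,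
    Rch M O (M.vt d) (M.vt e) → ∃ n, (nxt M O)^[n] d = e

/-- **BDEX.** A vertex `b` outside `O` with a neighbour in `O` and a neighbour outside `O` is the
start of a boundary dart.

Proof: `out b` is one cycle of `σ`; it contains a dart with end in `O` and a dart with end outside
`O`; so it contains `x` with `tg x ∈ O`, `tg (σ x) ∉ O`.  The face of `σ x` is the face of `α x`,
and `vt (α x) = tg x ∈ O`; so `σ x ∈ bd O`. -/
def StmtBdex : Prop :=
  ∀ (D V E F : Type) [Fintype D] [Fintype V] [Fintype E] [Fintype F] (M : PM D V E F)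
    (O : Finset V) (b u w : V), b ∉ O → Ad M b u → u ∉ O → Ad M b w → w ∈ O →
    ∃ d ∈ bd M O, M.vt d = b

/-- **HALF.** If the cycle of `nxt` through `d` and `e` has a vertex in `A` and a vertex outside
`A` then at least two boundary darts have exactly one end in `A`.

Proof: by SOL `e = nxt^[n] d`, and `d = nxt^[k] e` (`nxt` permutes the finite set `bd O`).  As
`tg x = vt (nxt x)`, on the way from `d` to `e` there is a boundary dart `x` with
`vt x ∈ A`, `tg x ∉ A`, and on the way from `e` to `d` there is one with `vt x ∉ A`,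
`tg x ∈ A`. -/
def StmtHalf : Prop :=
  ∀ (D V E F : Type) [Fintype D] [Fintype V] [Fintype E] [Fintype F] (M : PM D V E F)
    (O A : Finset V), FConn M O → O.Nonempty → ∀ d ∈ bd M O, ∀ e ∈ bd M O,
    Rch M O (M.vt d) (M.vt e) → M.vt d ∈ A → M.vt e ∉ A → 2 ≤ hf M O A

/-- **ARC.** If at most three boundary darts have exactly one end in `A` then one of the two arcs
of the cycle of `nxt` through `d` and `e` avoids `A`.

Proof: by SOL and NXT `d` and `e` are on one cycle of the permutation `nxt` of `bd O`; let `L` be
its length, `e = nxt^[n] d` with `n < L` minimal, `d = nxt^[L - n] e` (if `d = e` take `n = 0`).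
The elements `nxt^[i] d`, `i < L`, are distinct.  Suppose that the arc `i = 0, …, n` has a dart
with an end in `A` and that the arc `i = n, …, L` has one too.  Both arcs start and end with darts
with both ends outside `A`, and `tg` of a dart is `vt` of the next one; so each arc has a dart
with `vt ∉ A`, `tg ∈ A` and a dart with `vt ∈ A`, `tg ∉ A`; they are inner darts of the arcs, so
all four are distinct, against `hf ≤ 3`. -/
def StmtArc : Prop :=
  ∀ (D V E F : Type) [Fintype D] [Fintype V] [Fintype E] [Fintype F] (M : PM D V E F)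
    (O A : Finset V), FConn M O → O.Nonempty → ∀ d ∈ bd M O, ∀ e ∈ bd M O,
    Rch M O (M.vt d) (M.vt e) → M.vt d ∉ A → tg M d ∉ A → M.vt e ∉ A → tg M e ∉ A →
    hf M O A ≤ 3 →
    ∃ a b, ((a = d ∧ b = e) ∨ (a = e ∧ b = d)) ∧ ∃ n, (nxt M O)^[n] a = b ∧
      ∀ i ≤ n, (nxt M O)^[i] a ∈ bd M O ∧ M.vt ((nxt M O)^[i] a) ∉ A ∧
        tg M ((nxt M O)^[i] a) ∉ A

/-- **LOSS.** The number of boundary darts after adding one vertex.

Let `p ∉ X` be on a common face with a vertex of `X`.  Then, with `X' = insert p X`,
`|bd X'| + 4 ≤ |bd X| + link p`, or all the neighbours of `p` are in `X` and `|bd X'| ≤ |bd X|`.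
If moreover `p` is joined to `a ∈ X` by an edge on a square then `4` can be replaced by `5`.

Proof.  A face contains `p` at most once (triangles: `noloop`; squares: `noloop` and `opp`), so
the faces at `p` are the faces of the darts `g ∈ out p`, all distinct, and the darts of the face
of `g` are `g, ph g, ph² g` (and `ph³ g` for a square).  For a dart `d` whose face does not contain
`p` we have `d ∈ bd X' ↔ d ∈ bd X`.  So `|bd X| - |bd X'|` is the sum over `g ∈ out p` of
`c(g) - c'(g)`, the numbers of darts of the face of `g` in `bd X` and `bd X'`.  Put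
`loss g = (size of the face - 2) + c(g) - c'(g)`; the sum of `loss g` over `g ∈ out p` is
`link p + |bd X| - |bd X'|`.  Let `u g = [tg g ∈ X]`.  The vertices of the face of `g` are
`p = vt g`, `z = tg g = vt (ph g)`, (the opposite vertex `o = vt (ph² g)` if the face is a square)
and `z' = tg (σ⁻¹ g)`, the start of the dart `ph⁻¹ g = α (σ⁻¹ g)` (because `ph (α x) = σ x`).
Triangle: (`z, z' ∉ X`) `c = 0, c' = 1`, loss `0`; (exactly one of them in `X`) `c = 1`, `c' = 0`,
loss `2`; (both in `X`) `c = 0`, `c' = 0`, loss `1`.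
Square: no other vertex in `X`: `c = 0, c' = 2`, loss `0`; only `o`: `c = 2, c' = 0`, loss `4`;
exactly one of `z, z'` in `X`: without `o`: `c = 2, c' = 1`, with `o`: `c = 1, c' = 0`, loss `3`;
both `z, z'`: `c = c' = 0`, loss `2`.
So `loss g ≥ 2` if `u g ≠ u (σ⁻¹ g)` (and `≥ 3` for squares), `loss g ≥ 1` if `u g = u (σ⁻¹ g) = 1`
(and `≥ 2` for squares), and `loss g ≥ 0` always.
If `u` is not constant on `out p` (one `σ`-cycle) then `u g ≠ u (σ⁻¹ g)` for at least two `g` (one
change from `0` to `1` and one from `1` to `0`), so the total loss is `≥ 4`; if the edge from `p` to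
`a ∈ X` by the dart `g₀ ∈ out p` lies on a square, this is the face of `g₀` or the face of
`α g₀`, which is the face of `σ g₀`; in both cases one end of the sector has `u = 1`, and the loss
of this square is one more than what was counted (`3` instead of `2` for a change, `2` instead of
`0` for no change), so the total loss is `≥ 5`.
If `u = 0` on `out p`: `p` is on a face with a vertex of `X`, which must be the opposite vertex of
a square at `p`: loss `4` (in the second statement `u` is not `0`).
If `u = 1` on `out p`: all neighbours of `p` are in `X`, and the loss is `1` for each triangle and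
`2` for each square at `p`, in total exactly `link p`; so `|bd X'| = |bd X|`. -/
def StmtLoss : Prop :=
  ∀ (D V E F : Type) [Fintype D] [Fintype V] [Fintype E] [Fintype F] (M : PM D V E F),
    Small M → ∀ (X : Finset V) (p : V), p ∉ X → (∃ u ∈ X, FA M u p) →
    ((bd M (insert p X)).card + 4 ≤ (bd M X).card + link M p ∨
      ((∀ v, Ad M p v → v ∈ X) ∧ (bd M (insert p X)).card ≤ (bd M X).card)) ∧
    (∀ a ∈ X, SqE M p a →
      (bd M (insert p X)).card + 5 ≤ (bd M X).card + link M p ∨
        (bd M (insert p X)).card ≤ (bd M X).card)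

/-- **ONE.** The boundary of one vertex: `|bd {p}| ≤ link p`.

Proof: as in LOSS with `X = ∅`: the faces that touch `{p}` are the faces at `p`; a triangle at `p`
has one dart in `bd {p}` and a square has two. -/
def StmtOne : Prop :=
  ∀ (D V E F : Type) [Fintype D] [Fintype V] [Fintype E] [Fintype F] (M : PM D V E F),
    Small M → ∀ p : V, (bd M {p}).card ≤ link M p

/-- **W.** The number of boundary darts of a face-connected set in a map with `link ≤ 7`.

Proof (from LOSS and ONE).  Let `P` be a set of disjoint pairs.  Call a subset `X ⊆ O` closed if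
for every `(a, b) ∈ P` we have `a ∈ X ↔ b ∈ X`.  Claim: if `X ⊆ O` is closed, nonempty and
`|bd X| + |P_X| ≤ 4 + 3 |X|` (`P_X` the pairs inside `X`) and `X ≠ O`, then there is a closed
`X' ⊃ X`, `X' ⊆ O`, with the same property.  By `FConn O` some `p ∈ O \ X` is on a common face
with a vertex of `X`.  If `p` is in no pair put `X' = insert p X`; by LOSS
`|bd X'| ≤ |bd X| + 3` (`link p ≤ 7`, or `|bd X'| ≤ |bd X|`).  If `(p, b)` or `(b, p)` is a pair
then `b ∉ X`, and `X' = insert b (insert p X)`: adding `p` costs at most `3`; adding `b` costs at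
most `7 - 5 = 2` or `0`, by the second part of LOSS with `a = p` (`SqE` is symmetric); so
`|bd X'| + |P_X'| ≤ |bd X| + 3 + 2 + |P_X| + 1 ≤ 4 + 3 |X| + 6`.
Start: `X = {p}` if `p` is in no pair (`|bd X| ≤ 7` by ONE), and `X = {p, b}` if it is in a pair:
`|bd X| ≤ 7 + 2`, `9 + 1 = 4 + 3 * 2`.  Induction on `|O \ X|`. -/
def StmtW : Prop :=
  ∀ (D V E F : Type) [Fintype D] [Fintype V] [Fintype E] [Fintype F] (M : PM D V E F),
    Small M → ∀ (O : Finset V) (P : Finset (V × V)), (∀ v ∈ O, link M v ≤ 7) →
    FConn M O → O.Nonempty → Pairs M O P → (bd M O).card + P.card ≤ 4 + 3 * O.card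

end Pool.Agent.Helper74.UB
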