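import Pool.Agent.Helper74.UB.Goals1

/-!
# UB, part 2: fires, routes, events

Conventions for the docstrings.  `Fire M c v₀ A Q` is a fire; `O` is usually a component of some
`Q t`, so `O` is disjoint from all `A s` (`Fire.disj`).  The relation `FA` is symmetric, and
`Ad u v` implies `FA u v` (`fc (ph d) = fc d`, `vt (ph d) = tg d`).  `Rch M O` is symmetric on
vertices outside `O` (`Ad` is symmetric by `α`).
-/

namespace Pool.Agent.Helper74.UB

open Finset Equiv Helper28.VF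
open scoped Classical

/-- The components of `Q`. -/
noncomputable def comps {D V E F : Type} [Fintype D] [Fintype V] [Fintype E] [Fintype F]
    (M : PM D V E F) (Q : Finset V) : Finset (Finset V) := Q.powerset.filter (IsComp M Q)

/-- **PART.** The components of `Q` form a partition of `Q`.

Proof. (1) For `v ∈ Q` let `O` be the set of all `u ∈ Q` that can be reached from `v` by steps
`FA` inside `Q` (`Relation.ReflTransGen fun a b => FA M a b ∧ b ∈ Q`).  It is closed.  `FConn`: if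
`X ⊆ O` is nonempty and `≠ O`, take `x ∈ X`, `y ∈ O \ X`; there is a chain `x, …, v, …, y` in
`O`; one of its steps goes from `X` to `O \ X`.
(2) Let `Q ⊆ Q'`, let `O`, `O'` be components of `Q`, `Q'` with a common element and
`X = O ∩ O'`.  If `X ≠ O` then by `FConn O` there are `u ∈ X`, `w ∈ O \ X` with `FA u w`; then
`w ∈ Q'`, so `w ∈ O'`, contradiction.  So `O ⊆ O'`.
(3) from (2) with `Q = Q'` twice.  (4) from (1), (3): `Q` is the disjoint union of its
components. -/
def StmtPart : Prop :=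
  ∀ (D V E F : Type) [Fintype D] [Fintype V] [Fintype E] [Fintype F] (M : PM D V E F),
    (∀ (Q : Finset V), ∀ v ∈ Q, ∃ O, IsComp M Q O ∧ v ∈ O) ∧
    (∀ (Q Q' O O' : Finset V), Q ⊆ Q' → IsComp M Q O → IsComp M Q' O' → ¬ Disjoint O O' →
      O ⊆ O') ∧
    (∀ (Q O O' : Finset V), IsComp M Q O → IsComp M Q O' → ¬ Disjoint O O' → O = O') ∧
    (∀ Q : Finset V, ∑ O ∈ comps M Q, O.card = Q.card)

/-- **FIRECON.** A fire is connected, and each burning vertex has a neighbour that will never be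
protected.

Proof. (1) By induction on `s` every `v ∈ A s` can be reached from `v₀` and can reach `v₀` inside
`A s` (`Fire.new`); vertices of `A s` are outside `O`.  (2) If `v ∈ A s`, `v ≠ v₀` then `v` was
burnt by a neighbour in `A s` (induction on `s` with `Fire.new`); if `v = v₀`: by `Fire.esc` there
is `w ∈ A 1`, `w ≠ v₀`, so by `Fire.new` and `Fire.zero` `Ad v₀ w`; `w ∉ Q t`
by `Fire.disj`. -/
def StmtFireCon : Prop :=
  ∀ (D V E F : Type) [Fintype D] [Fintype V] [Fintype E] [Fintype F] (M : PM D V E F)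
    (c : ℕ) (v₀ : V) (A Q : ℕ → Finset V), Fire M c v₀ A Q →
    (∀ (O : Finset V) (s : ℕ), Disjoint O (A s) → ∀ u ∈ A s, ∀ w ∈ A s, Rch M O u w) ∧
    (∀ s, ∀ v ∈ A s, ∃ w, Ad M v w ∧ ∀ t, w ∉ Q t)

/-- **GROW.** Boundary darts with one burning end burn completely in the next step.

Proof. Let `d ∈ bd O`, one end `u ∈ A s`, the other end `v ∉ A s`.  `Ad u v` (by `d` or `α d`), so
`v ∈ A (s+1)` or `v ∈ Q s` by `Fire.spread`.  In the second case `v ∈ Q t` (`monoQ`) and `v` is on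
the face on the left of `d`, which contains some `w ∈ O`; so `FA w v`, so `v ∈ O`, but both ends
of `d` are outside `O`.  So both ends are in `A (s+1)`.  The darts counted by `be O (A s)` are
also counted by `be O (A (s+1))`, and they are different from the darts counted by
`hf O (A s)`. -/
def StmtGrow : Prop :=
  ∀ (D V E F : Type) [Fintype D] [Fintype V] [Fintype E] [Fintype F] (M : PM D V E F)
    (c : ℕ) (v₀ : V) (A Q : ℕ → Finset V), Fire M c v₀ A Q →
    ∀ (s t : ℕ) (O : Finset V), s ≤ t → IsComp M (Q t) O →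
    be M O (A s) + hf M O (A s) ≤ be M O (A (s + 1))

/-- **HER.** Half burning boundary darts of the components of `Q s` inside a component `O` of
`Q t`, `s ≤ t`, are half burning boundary darts of `O`, and they are different for different
components.

Proof. Let `d ∈ bd O₁`, one end `u ∈ A s`, the other `v ∉ A s`.  The face of `d` touches `O`
because `O₁ ⊆ O`.  `u ∉ O` because `u ∈ A s`.  `v ∈ A (s+1)` or `v ∈ Q s`; in the second case
`v` is on a face with a vertex of `O₁`, so `v ∈ O₁`, contradiction.  So `v ∈ A (s+1)` is not in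
`Q t ⊇ O`.  So `d ∈ bd O`.  If `d ∈ bd O₁` and `d ∈ bd O₂` then the face of `d` contains
`w₁ ∈ O₁` and `w₂ ∈ O₂`, `FA w₁ w₂`, so `w₂ ∈ O₁`, and `O₁ = O₂` by PART. -/
def StmtHer : Prop :=
  ∀ (D V E F : Type) [Fintype D] [Fintype V] [Fintype E] [Fintype F] (M : PM D V E F)
    (c : ℕ) (v₀ : V) (A Q : ℕ → Finset V), Fire M c v₀ A Q →
    ∀ (s t : ℕ) (O O₁ O₂ : Finset V), s ≤ t → IsComp M (Q t) O → IsComp M (Q s) O₁ →
    IsComp M (Q s) O₂ → O₁ ⊆ O → O₂ ⊆ O →
    hf M O₁ (A s) ≤ hf M O (A s) ∧ (O₁ ≠ O₂ → hf M O₁ (A s) + hf M O₂ (A s) ≤ hf M O (A s))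

/-- **EVT.** The walk at an event: if `p s 0` is in a set `Q t`, `s ≤ t ≤ T`, then it is in `Q s`,
the walk has a positive length, its later vertices are not in `Q s`, and its end is not in `Q t`.

Proof. `p s 0 ∈ Q t` is not in `A (s+1)` by `Fire.disj`, so the second case of `Route.alt` holds.
`p s (n s) ∈ X` is not in `Q t` by `Col.disj`; so `n s ≠ 0`.  For `i ≥ 1` all neighbours of
`p s i` are outside `A (s+1) ⊇ A s`; so `p s i ∉ Q s` by `Fire.adjQ`. -/
def StmtEvt : Prop :=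
  ∀ (D V E F : Type) [Fintype D] [Fintype V] [Fintype E] [Fintype F] (M : PM D V E F)
    (c : ℕ) (v₀ : V) (A Q : ℕ → Finset V), Fire M c v₀ A Q →
    ∀ (T : ℕ) (X : Finset V), Col M Q T X → ∀ (R : Route M A Q X T) (s t : ℕ), s < T → s ≤ t →
    t ≤ T → R.p s 0 ∈ Q t →
    R.p s 0 ∈ Q s ∧ 1 ≤ R.n s ∧ (∀ i, 1 ≤ i → i ≤ R.n s → R.p s i ∉ Q s) ∧
    R.p s (R.n s) ∉ Q t ∧ (∀ i ≤ R.n s, R.p s i ∉ A (s + 1)) ∧
    ∀ i, 1 ≤ i → i ≤ R.n s → ∀ u, Ad M (R.p s i) u → u ∉ A (s + 1)

/-- **EXIT.** The last exit of a walk from `O` gives a boundary dart.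

Proof. Let `i₀` be the last `i ≤ n s` with `p s i ∈ O` (it exists by assumption); `i₀ < n s` because
`p s (n s) ∈ X` and `X` is disjoint from `O ⊆ Q t`.  Put `i = i₀ + 1`, `b = p s i ∉ O`.  All
`p s j`, `j ≥ i`, are outside `O`.  BDEX: `b` is adjacent to `p s i₀ ∈ O`, and to `p s (i+1) ∉ O` if
`i < n s`, or to an element of `X` if `i = n s` (`Col.nbr`). -/
def StmtExit : Prop :=
  ∀ (D V E F : Type) [Fintype D] [Fintype V] [Fintype E] [Fintype F] (M : PM D V E F)
    (A Q : ℕ → Finset V) (T : ℕ) (X : Finset V), Col M Q T X → ∀ (R : Route M A Q X T)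
    (s t : ℕ) (O : Finset V), s < T → t ≤ T → O ⊆ Q t → (∃ i ≤ R.n s, R.p s i ∈ O) →
    ∃ i, 1 ≤ i ∧ i ≤ R.n s ∧ R.p s (i - 1) ∈ O ∧ (∀ j, i ≤ j → j ≤ R.n s → R.p s j ∉ O) ∧
    ∃ d ∈ bd M O, M.vt d = R.p s i

/-- **TAIL.** The tails of two walks outside `O` are connected outside `O`.

Proof. `O ⊆ Q t` is disjoint from `X`; go from `R₁.p s i` along the first walk to `X`, inside `X`
(`Col.conn`) to the end of the second walk and back along the second walk to `R₂.p s j` (`Ad` is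
symmetric). -/
def StmtTail : Prop :=
  ∀ (D V E F : Type) [Fintype D] [Fintype V] [Fintype E] [Fintype F] (M : PM D V E F)
    (A Q : ℕ → Finset V) (T : ℕ) (X : Finset V), Col M Q T X → ∀ (R₁ R₂ : Route M A Q X T)
    (s t : ℕ) (O : Finset V), s < T → t ≤ T → O ⊆ Q t →
    ∀ i ≤ R₁.n s, ∀ j ≤ R₂.n s, (∀ k, i ≤ k → k ≤ R₁.n s → R₁.p s k ∉ O) →
    (∀ k, j ≤ k → k ≤ R₂.n s → R₂.p s k ∉ O) → Rch M O (R₁.p s i) (R₂.p s j)

/-- **P1.** An event on the first route whose component does not block the second route.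

Proof. Let `p = R₁.p s`, `q = R₂.p s`, `z = R₁.z s`, `z' = R₂.z s`, `O` the component of `Q s` that
contains `p 0`.  By FIRECON `z` has a neighbour outside all `Q t`, so by BDEX there is
`d ∈ bd O` with `vt d = z ∈ A s`.  By EVT `p i ∉ Q s` for `i ≥ 1`, `n ≥ 1`; the exit index of
EXIT is `1` (or directly by BDEX), so there is `e ∈ bd O` with `vt e = p 1 ∉ A s`.
If `Rch O z (p 1)` then HALF gives the claim.
Otherwise the second walk meets `O`: if not, `Rch O z z'` by FIRECON, `Rch O z' (q 0)` and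
`Rch O (q 0) (p 1)` by TAIL, contradiction.  Let `i` be minimal with `q i ∈ O`; `i ≥ 1` because
`q 0 ∉ O`.  `b = q (i-1) ∉ O`, `b ∉ A s`, `b` is adjacent to `q i ∈ O` and to a vertex outside `O`
(`q (i-2)`, or `z' ∈ A s` if `i = 1`); by BDEX there is `e ∈ bd O` with `vt e = b`;
`Rch O z b` (fire from `z` to `z'`, then `q 0, …, q (i-1)`).  HALF gives the claim. -/
def StmtP1 : Prop :=
  ∀ (D V E F : Type) [Fintype D] [Fintype V] [Fintype E] [Fintype F] (M : PM D V E F)
    (c : ℕ) (v₀ : V) (A Q : ℕ → Finset V), Fire M c v₀ A Q →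
    ∀ (T : ℕ) (X : Finset V), Col M Q T X → ∀ (R₁ R₂ : Route M A Q X T) (s : ℕ) (O : Finset V),
    s < T → IsComp M (Q s) O → R₁.p s 0 ∈ O → R₂.p s 0 ∉ O → 2 ≤ hf M O (A s)

/-- **K2.** If time `s` is not harmful then each component `O` of a later `Q t` gets at least two
half burning boundary darts for each event in `O`.

Proof. First let `t = s`.  If no head (`R₁.p s 0`, `R₂.p s 0`) is in `O` nothing is to be shown.  If
exactly one is in `O` use P1 (for the second route with the roles of `R₁` and `R₂` exchanged).  If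
both are in `O` then `¬ Harm` gives `hf M O (A s) ≥ 4`.
Now let `t > s`.  If `R₁.p s 0 ∈ O` then `R₁.p s 0 ∈ Q s` by EVT; let `O₁ ⊆ O` be its component in
`Q s` (PART).  The same for `R₂` and `O₂`.  If only one head is in `O` use the case `t = s` for `O₁`
and HER; if both are and `O₁ = O₂`, the same; if `O₁ ≠ O₂` use the case `t = s` for both and the
second part of HER (`R₁.p s 0 ∈ O₁`, `R₂.p s 0 ∈ O₂` give `2` and `2`). -/
def StmtK2 : Prop :=
  ∀ (D V E F : Type) [Fintype D] [Fintype V] [Fintype E] [Fintype F] (M : PM D V E F)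
    (c : ℕ) (v₀ : V) (A Q : ℕ → Finset V), Fire M c v₀ A Q →
    ∀ (T : ℕ) (X : Finset V), Col M Q T X → ∀ (R₁ R₂ : Route M A Q X T) (s t : ℕ)
    (O : Finset V), s < T → s ≤ t → t ≤ T → ¬ Harm R₁ R₂ s → IsComp M (Q t) O →
    2 * ((if R₁.p s 0 ∈ O then 1 else 0) + (if R₂.p s 0 ∈ O then 1 else 0)) ≤ hf M O (A s)

/-- **P2.** At an event four boundary darts do not burn.

Let `O` be a component of `Q t`, `s < t ≤ T`, `R₁.p s 0 ∈ O`.  Then at least four boundary darts of
`O` have an end outside `A (s+1)`.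

Proof. By EVT the event case of `Route.alt` holds.  EXIT for the first walk: `b = R₁.p s i ∉ O`,
`i ≥ 1`, `d₀ ∈ bd O`, `vt d₀ = b`; `b` and all neighbours of `b` are outside `A (s+1)`.  By NXT
there are `d₁, d₂ ∈ bd O` with `nxt d₁ = d₀`, `nxt d₂ = d₁`; put `d₃ = nxt d₀`.  Put
`x = vt d₁` (a neighbour of `b`, because `tg d₁ = b`) and `y = tg d₀ = vt d₃`.
(1) There is `g ∈ bd O` in the `nxt` cycle of `d₀` with `vt g ∉ {x, b, y}`.  Let `z = R₁.z s`.
By FIRECON and BDEX (`z` is adjacent to `R₁.p s 0 ∈ O`) there is `g ∈ bd O` with `vt g = z`; if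
`Rch O b z` take this `g` (SOL); `z ∈ A (s+1)`, but `x, b, y ∉ A (s+1)`.
If not `Rch O b z`: the second walk meets `O`, otherwise `Rch O b z` by TAIL and FIRECON.
EXIT for the second walk: `b' = R₂.p s j ∉ O`, `g ∈ bd O`, `vt g = b'`; `Rch O b b'` by TAIL, so
`g` is in the cycle of `d₀` by SOL.  By `Far`, `b' ≠ b` and `b'` is not adjacent to `b`, so
`b' ∉ {x, b, y}`.
(2) `d₂, d₁, d₀, d₃` are distinct: `nxt` permutes `bd O` (NXT); if two of these consecutive elements
of the cycle are equal then the cycle has at most three elements and each of them is `d₁`, `d₀` or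
`d₃`, so `vt g ∈ {x, b, y}`, against (1).
(3) `tg d₂ = x`, `vt d₁ = x`, `vt d₀ = b`, `vt d₃ = y` are outside `A (s+1)`, so none of the four
darts is counted in `be O (A (s+1))`. -/
def StmtP2 : Prop :=
  ∀ (D V E F : Type) [Fintype D] [Fintype V] [Fintype E] [Fintype F] (M : PM D V E F)
    (c : ℕ) (v₀ : V) (A Q : ℕ → Finset V), Fire M c v₀ A Q →
    ∀ (T : ℕ) (X : Finset V), Col M Q T X → ∀ (R₁ R₂ : Route M A Q X T), R₁.Far R₂ →
    ∀ (s t : ℕ) (O : Finset V), s < t → t ≤ T → IsComp M (Q t) O → R₁.p s 0 ∈ O →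
    be M O (A (s + 1)) + 4 ≤ (bd M O).card

/-- The number of times `s < t` at which the head of the route is in `O`. -/
noncomputable def evO {D V E F : Type} [Fintype D] [Fintype V] [Fintype E] [Fintype F]
    {M : PM D V E F} {A Q : ℕ → Finset V} {X : Finset V} {T : ℕ} (R : Route M A Q X T)
    (O : Finset V) (t : ℕ) : ℕ := ((range t).filter fun s => R.p s 0 ∈ O).card

/-- **EVB.** The number of events in one component.

Let no time `s < t` be harmful, `O` a component of `Q t`, `t ≤ T`, `k = evO R₁ O t + evO R₂ O t`.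
(1) `2 k ≤ be O (A t)`.  (2) if `|bd O| ≤ 4 + 3 |O|` then `2 k ≤ 3 |O|`.
(3), (4): if no head is in `O` at time `0`, `hf O (A 0) ≥ 2` and `t ≥ 1`, the same
with `2 k + 2`.

Proof. By K2 and GROW, `be O (A (s+1)) ≥ be O (A s) + 2 ([R₁.p s 0 ∈ O] + [R₂.p s 0 ∈ O])` for
`s < t`; so `be O (A r) ≥ 2 (evO R₁ O r + evO R₂ O r)` for `r ≤ t` (induction), and under the
assumptions of (3), (4) `be O (A r) ≥ 2 (evO R₁ O r + evO R₂ O r) + 2` for `1 ≤ r ≤ t`, because the
first step contributes `0` to the events and `hf O (A 0) ≥ 2` to `be`.  This is (1), (3).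
(2), (4): if `k = 0` use `|O| ≥ 1`.  Otherwise let `s < t` be the last time at which a head is in
`O`; by P2 (for `R₂` with exchanged roles; `Far` is symmetric) `be O (A (s+1)) ≤ |bd O| - 4 ≤
3 |O|`, and all `k` events are before `s + 1`; in case (4) `s + 1 ≥ 1`. -/
def StmtEvb : Prop :=
  ∀ (D V E F : Type) [Fintype D] [Fintype V] [Fintype E] [Fintype F] (M : PM D V E F)
    (c : ℕ) (v₀ : V) (A Q : ℕ → Finset V), Fire M c v₀ A Q →
    ∀ (T : ℕ) (X : Finset V), Col M Q T X → ∀ (R₁ R₂ : Route M A Q X T), R₁.Far R₂ →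
    ∀ (t : ℕ) (O : Finset V), t ≤ T → (∀ s < t, ¬ Harm R₁ R₂ s) → IsComp M (Q t) O →
    2 * (evO R₁ O t + evO R₂ O t) ≤ be M O (A t) ∧
    ((bd M O).card ≤ 4 + 3 * O.card → 2 * (evO R₁ O t + evO R₂ O t) ≤ 3 * O.card) ∧
    (1 ≤ t → R₁.p 0 0 ∉ O → R₂.p 0 0 ∉ O → 2 ≤ hf M O (A 0) →
      2 * (evO R₁ O t + evO R₂ O t) + 2 ≤ be M O (A t) ∧
      ((bd M O).card ≤ 4 + 3 * O.card → 2 * (evO R₁ O t + evO R₂ O t) + 2 ≤ 3 * O.card))

/-- **TOT.** The total number of events.

Proof. If `R.Ev s`, `s < t`, then `R.p s 0 ∈ Q s ⊆ Q t` is in exactly one component of `Q t`;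
conversely if `R.p s 0 ∈ O ⊆ Q t`, `s < t`, then `R.Ev s` by EVT.  So `R.ev t` is the sum of
`evO R O t` over the components of `Q t`, and `|Q t|` is the sum of the `|O|` (PART).  Sum up EVB (2)
over all components for the first claim, and EVB (2) over the components `≠ C` and EVB (1) for `C`
for the second one.  For the third claim use (3) instead of (1) for `C` if `C = O₀` and (4) instead
of (2) for `O₀` if `C ≠ O₀`. -/
def StmtTot : Prop :=
  ∀ (D V E F : Type) [Fintype D] [Fintype V] [Fintype E] [Fintype F] (M : PM D V E F)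
    (c : ℕ) (v₀ : V) (A Q : ℕ → Finset V), Fire M c v₀ A Q →
    ∀ (T : ℕ) (X : Finset V), Col M Q T X → ∀ (R₁ R₂ : Route M A Q X T), R₁.Far R₂ →
    ∀ t ≤ T, (∀ s < t, ¬ Harm R₁ R₂ s) →
    (∀ O, IsComp M (Q t) O → (bd M O).card ≤ 4 + 3 * O.card) →
    2 * (R₁.ev t + R₂.ev t) ≤ 3 * (Q t).card ∧
    (∀ C, IsComp M (Q t) C →
      2 * (R₁.ev t + R₂.ev t) + 3 * C.card ≤ 3 * (Q t).card + be M C (A t)) ∧
    (∀ C O₀, IsComp M (Q t) C → IsComp M (Q t) O₀ → 1 ≤ t → ¬ R₁.Ev 0 → ¬ R₂.Ev 0 →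
      2 ≤ hf M O₀ (A 0) →
      2 * (R₁.ev t + R₂.ev t) + 2 + 3 * C.card ≤ 3 * (Q t).card + be M C (A t))

/-- **TIME.** Proof: induction on `t` with `Route.alt`: in the first case `Φ` decreases; in the
second case `R.Ev s` holds and `ev` increases. -/
def StmtTime : Prop :=
  ∀ (D V E F : Type) [Fintype D] [Fintype V] [Fintype E] [Fintype F] (M : PM D V E F)
    (A Q : ℕ → Finset V) (T : ℕ) (X : Finset V) (R : Route M A Q X T), ∀ t ≤ T,
    t + R.Φ t ≤ R.Φ 0 + R.ev t

/-- **ARCX.** At a harmful time there is an arc of the boundary of `O`, outside the fire, between the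
second vertices of the two walks.

Proof. By EVT for both routes (`t = s`), `n s ≥ 1` and `b₁ = R₁.p s 1`, `b₂ = R₂.p s 1` and the later
vertices of the walks are outside `Q s`; so the exit index in EXIT is `1`, which gives
`d, e ∈ bd O` with `vt d = b₁`, `vt e = b₂`.  These vertices and their neighbours are outside
`A (s+1) ⊇ A s`.  `Rch O b₁ b₂` by TAIL.  ARC gives the arc from `d` to `e` or from `e` to `d`;
`g i = nxt^[i] a`, `tg (g i) = vt (g (i+1))` by NXT. -/
def StmtArcX : Prop :=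
  ∀ (D V E F : Type) [Fintype D] [Fintype V] [Fintype E] [Fintype F] (M : PM D V E F)
    (c : ℕ) (v₀ : V) (A Q : ℕ → Finset V), Fire M c v₀ A Q →
    ∀ (T : ℕ) (X : Finset V), Col M Q T X → ∀ (R₁ R₂ : Route M A Q X T) (s : ℕ)
    (O : Finset V), s < T → IsComp M (Q s) O → R₁.p s 0 ∈ O → R₂.p s 0 ∈ O →
    hf M O (A s) ≤ 3 →
    ∃ (k : ℕ) (g : ℕ → D), (∀ i ≤ k, g i ∈ bd M O ∧ M.vt (g i) ∉ A s ∧ tg M (g i) ∉ A s) ∧
      (∀ i < k, M.vt (g (i + 1)) = tg M (g i)) ∧
      ((M.vt (g 0) = R₁.p s 1 ∧ M.vt (g k) = R₂.p s 1) ∨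
        (M.vt (g 0) = R₂.p s 1 ∧ M.vt (g k) = R₁.p s 1))

end Pool.Agent.Helper74.UB
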