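import Pool.Agent.Helper74.UB.Defs4

/-!
# UB, part 4: routes, geometry of the host, harmful times

Definitions in `Defs`, `Defs3`, `Defs4`.  In the docstrings `t = tp row y0 (A s)` and
`b = bt row y1 (A s)` are the highest and lowest row of the fire.
-/

namespace Pool.Agent.Helper74.UB

open Finset Equiv Helper28.VF
open scoped Classical

/-! ## Routes -/

/-- **TPF.** Facts on `tp` and `bt`.  Proof: `max'`, `min'`. -/
def StmtTpF : Prop :=
  ∀ (V J : Type) [Fintype V] (row : V → ℤ) (y : ℤ) (B : Finset (V ⊕ J)),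
    (y ≤ tp row y B ∧ (∀ v, Sum.inl v ∈ B → row v ≤ tp row y B) ∧
      (tp row y B = y ∨ ∃ v, Sum.inl v ∈ B ∧ row v = tp row y B)) ∧
    (bt row y B ≤ y ∧ (∀ v, Sum.inl v ∈ B → bt row y B ≤ row v) ∧
      (bt row y B = y ∨ ∃ v, Sum.inl v ∈ B ∧ row v = bt row y B)) ∧
    (∀ B', B ⊆ B' → tp row y B ≤ tp row y B' ∧ bt row y B' ≤ bt row y B) ∧
    (∀ h : ℤ, tp (fun v => h - row v) (h - y) B = h - bt row y B ∧
      bt (fun v => h - row v) (h - y) B = h - tp row y B)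

/-- **CAPD.** Distances to `w` in the upper cap.

Proof. For `v` in the rows `≥ h + 1` let `dd v` be the least length of a walk (steps `L.adj`) from `v`
to `w` inside the rows `≥ h + 1`; for `v` in row `h` let `dd v` be `1` plus the minimum of `dd u` over the
upper neighbours `u` of `v` (there is one by `Ax.ul`, `K ≥ 1`).  A walk exists and is short: by
`Ax.ul` each vertex in a row `h + j`, `1 ≤ j ≤ K`, has a path of length `K - j ≤ K - 1` up to the top
row `h + K`; the top row is a cycle of length `3` of `e` (`cyc`, `top3`), so any two of its vertices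
are equal or adjacent (`L.adj` contains `v = e u` and `u = e v`; `e (e u) = e⁻¹ u`); `L.adj` is
symmetric.  So `dd ≤ 2 (K - 1) + 1` in the rows `≥ h + 1` and `dd ≤ 2 K` in row `h`.  The other claims are
the usual properties of distances. -/
def StmtCapD : Prop :=
  ∀ (K h : ℕ) (V : Type) [Fintype V] (L : Lay V) (f : ℤ → ZMod (3 * 2 ^ K) → V),
    Host K h L f → ∀ w, L.row w = h + 1 → ∃ dd : V → ℕ, dd w = 0 ∧
    (∀ v, (h : ℤ) + 1 ≤ L.row v → v ≠ w → ∃ u, L.adj v u ∧ (h : ℤ) + 1 ≤ L.row u ∧ dd u < dd v) ∧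
    (∀ v, L.row v = h → ∃ u, L.up v u ∧ dd u < dd v) ∧
    (∀ v, (h : ℤ) ≤ L.row v → dd v ≤ 2 * K + 2) ∧
    (∀ v u, (h : ℤ) + 1 ≤ L.row v → (h : ℤ) ≤ L.row u → L.adj v u → dd u ≤ dd v + 1)

/-- **POT.** The potential of the vertices above row `0`.

Proof. `dd` from CAPD.  `pot v = dd v` if `row v ≥ h`, else `pot v = (2 K + 2 + h - row v).toNat`.
`nx v`: if `0 ≤ row v < h` then `v = f (row v) i` by `Flat.surj`, and `nx v = f (row v + 1) i`
(adjacent by `upS`, `upT`; `i` is unique by `inj`); if `row v ≥ h`, `v ≠ w`, then the `u` of CAPD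
(`row u = h + 1` if `row v = h`). -/
def StmtPot : Prop :=
  ∀ (K h : ℕ) (V : Type) [Fintype V] (L : Lay V) (f : ℤ → ZMod (3 * 2 ^ K) → V),
    Host K h L f → ∀ w, L.row w = h + 1 → ∃ (pot : V → ℕ) (nx : V → V), pot w = 0 ∧
    (∀ v, 0 ≤ L.row v → v ≠ w → L.adj v (nx v) ∧ pot (nx v) < pot v) ∧
    (∀ r i, 0 ≤ r → r < h → nx (f r i) = f (r + 1) i) ∧
    (∀ v, (h : ℤ) ≤ L.row v → v ≠ w → (h : ℤ) + 1 ≤ L.row (nx v)) ∧
    (∀ v, L.row v < h → (pot v : ℤ) = 2 * K + 2 + h - L.row v) ∧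
    (∀ v, (h : ℤ) ≤ L.row v → pot v ≤ 2 * K + 2) ∧
    (∀ v u, (h : ℤ) + 1 ≤ L.row v → (h : ℤ) ≤ L.row u → L.adj v u → pot u ≤ pot v + 1)

/-- **BASEF.** Facts on the general situation.

Proof. (1) In case (A) there is no `q`; in case (B) `I` has exactly one element, so `inr q = v₀ ∈ A 0`.
(2) `Q s` is disjoint from `A s`.  (3) CONESMALL and HSMALL (in case (B) all `d` with `I (fc d)` are
squares by SQ; there are no such `d` in case (A)).  (4) SQ (in case (B) the darts of the square are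
in the strip `y0`; in case (A) there are none).  (5) CONEAD, STRIP, LAYAD.  (6) `A 0 = {v₀}`.
(7) `Fire.new`: a new host vertex is adjacent to a host vertex of `A s`, or to the new vertex `v₀`, and then it
is a corner of the square, in the rows `y0`, `y0 + 1`; `y0 ≤ tp`, `bt ≤ y1`.  (8) as (7) with
`Fire.adjQ`.  (9) case (A): `v₀ ∈ A s`; if `tp = y0` or `bt = y1` take `v₀`.  Case (B), `s ≥ 1`: by `Fire.esc`
a corner is in `A 1 ⊆ A s`; its row is `y0` or `y1 = y0 + 1`; if `tp = y0` then it is in row `y0`, and if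
`bt = y1` then it is in row `y1`. -/
def StmtBaseF : Prop :=
  ∀ (K h : ℕ) (V D E F E' F' : Type) [Fintype V] [Fintype D] [Fintype E] [Fintype F]
    [Fintype E'] [Fintype F'] (L : Lay V) (f : ℤ → ZMod (3 * 2 ^ K) → V) (M : PM D V E F)
    (dE dW : V → D) (dU dN : V → V → D) (I : F → Prop) (M' : PM (DC M I) (VC V I) E' F')
    (y0 y1 : ℤ) (c : ℕ) (v₀ : VC V I) (A Q : ℕ → Finset (VC V I)),
    Base K h L f M dE dW dU dN I M' y0 y1 c v₀ A Q →
    (∀ s q, Sum.inr q ∈ A s) ∧ (∀ s, ∀ u ∈ Q s, ∃ v, u = Sum.inl v) ∧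
    (Small M' ∧ ∀ v, link M' (Sum.inl v) ≤ 7) ∧
    (∀ d, I (M.fc d) → T4 M d ∧ InStrip M L.row d y0 ∧ Even y0) ∧
    (∀ u v, FA M' (Sum.inl u) (Sum.inl v) → L.row u ≤ L.row v + 1 ∧ L.row v ≤ L.row u + 1) ∧
    (tp L.row y0 (A 0) = y0 ∧ bt L.row y1 (A 0) = y1) ∧
    (∀ s, tp L.row y0 (A (s + 1)) ≤ tp L.row y0 (A s) + 1 ∧
      bt L.row y1 (A s) ≤ bt L.row y1 (A (s + 1)) + 1) ∧
    (∀ s v, Sum.inl v ∈ Q s → L.row v ≤ tp L.row y0 (A s) + 1 ∧
      bt L.row y1 (A s) ≤ L.row v + 1) ∧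
    (∀ s, ((∀ q, ¬ I q) ∨ 1 ≤ s) → (∃ v, Sum.inl v ∈ A s ∧ L.row v = tp L.row y0 (A s)) ∧
      ∃ v, Sum.inl v ∈ A s ∧ L.row v = bt L.row y1 (A s))

/-- **FLIPB.** The situation turned by 180 degrees (FLIP, SQ may be assumed).

Proof. `y0, y1` become `h - y1`, `h - y0`.  Case (B): the square of `dE (f y0 j)` contains
`dW (f (y0+1) j)` by SQ, and with `f' = flipF h f`, `dE' v = dW (e⁻¹ v)`:
`dE' (f' (h - y1) (-j-1)) = dW (e⁻¹ (f y1 (j+1))) = dW (f y1 j)`; `h - y1 = h - 1 - y0` is even. -/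
def StmtFlipB : Prop :=
  ∀ (K h : ℕ) (V D E F E' F' : Type) [Fintype V] [Fintype D] [Fintype E] [Fintype F]
    [Fintype E'] [Fintype F'] (L : Lay V) (f : ℤ → ZMod (3 * 2 ^ K) → V) (M : PM D V E F)
    (dE dW : V → D) (dU dN : V → V → D) (I : F → Prop) (M' : PM (DC M I) (VC V I) E' F')
    (y0 y1 : ℤ) (c : ℕ) (v₀ : VC V I) (A Q : ℕ → Finset (VC V I)),
    Base K h L f M dE dW dU dN I M' y0 y1 c v₀ A Q →
    Base K h (L.flip h) (flipF h f) M (fun v => dW (L.e.symm v)) (fun v => dE (L.e.symm v))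
      (fun v k => dN k v) (fun v k => dU k v) I M' (h - y1) (h - y0) c v₀ A Q

/-- **ROUTET.** The upper route.

Proof. Take `pot`, `nx` from POT.  A host vertex in a row `< h` has `pot ≥ 2 K + 3`, a host vertex in a
row `≥ h` has `pot ≤ 2 K + 2`.  Let `Φ s` be the minimum of `pot v` over the host vertices `v` with
`inl v ∈ A s` if there are any, and `2 K + 2 + h - y0` if there are none (case (B), `s = 0`: BASEF).
Let `t = tp (A s)` (`t ≥ y0 ≥ 0`).  If `t < h` then `Φ s = 2 K + 2 + h - t` (by BASEF the row `t` contains a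
host vertex of `A s`); if `t ≥ h` then `Φ s ≤ 2 K + 2`.  Hence, for a host vertex `u`: if `t < h` then
`pot u < Φ s` iff `row u > t`; if `t ≥ h` then `pot u < Φ s` implies `row u ≥ h`.  `Φ s > 0` for `s ≤ T`
because `pot v = 0` with `row v ≥ 0` only for `v = w` and `inl w ∉ A s`.
Let `s < T`.
Case 1: some host vertex of `A (s+1)` has `pot < Φ s`; let `v` be such a vertex with minimal `pot`.
Then `Φ (s+1) = pot v < Φ s`; `inl v ∉ A s`, so by `Fire.new` there is `z ∈ A s` adjacent to `inl v`.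
Let `p 0 = inl v` and `p (i+1) = inl (nx ..)` until `w` is reached (`pot` decreases; all rows are
`≥ 0`).  All `pot` values are `< Φ s`, so the walk is outside `A s`.
Case 2: no host vertex of `A (s+1)` has `pot < Φ s`.  Then `Φ (s+1) = Φ s` (if `A s` has no host vertex
then `A 1` has one, by `esc`, in row `≤ y0`, hence `= y0`).  Also `tp (A (s+1)) = t` if `t < h`.
If `A s` has a host vertex: let `inl v ∈ A s`, `pot v = Φ s`, `z = inl v`, `p 0 = inl (nx v)`; if `t < h`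
then `v = f t i` and `nx v = f (t+1) i`; if `t ≥ h` then `row (nx v) ≥ h + 1`.  If `A s` has no host
vertex: `z = v₀`, `p 0 = inl (f (y0+1) j)`, a corner of the square (SQ, CONEAD).  The walk
is continued with `nx` until `w`.  All vertices have `pot < Φ s`, so they are outside `A (s+1)`; `p 0` is
adjacent to `z ∈ A s`, so `p 0 ∈ Q s` by `spread`.  Let `i ≥ 1` and let `u` be a neighbour of `p i` in `M'`.
`u` is a host vertex: the corners of the square are in the rows `≤ y0 + 1`, but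
`row (p i) ≥ min (t+2) (h+1)` is larger.  If `t < h` then `row u ≥ min (t+1) h > t` so `pot u < Φ s`.  If
`t ≥ h` then `row (p i) ≥ h + 1`, `row u ≥ h`, `pot u ≤ pot (p i) + 1 < Φ s` because
`pot (p i) < pot (p 0) < Φ s`.  So `u ∉ A (s+1)`.
Rows: in both cases `row (p 0) ≥ min (t+1) h`; if `row (p i) ≥ h` then `row (p (i+1)) ≥ h + 1`, else
`row (p (i+1)) = row (p i) + 1`; so `row (p i) ≥ min (t+2) (h+1)` for `i ≥ 1`.  `p 0 ∈ Q s` only in
case 2 (`Fire.disj`), and then `row (p 0) ≥ min (t+1) (h+1)` (if `t < h` then `row (p 0) = t + 1`). -/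
def StmtRouteT : Prop :=
  ∀ (K h : ℕ) (V D E F E' F' : Type) [Fintype V] [Fintype D] [Fintype E] [Fintype F]
    [Fintype E'] [Fintype F'] (L : Lay V) (f : ℤ → ZMod (3 * 2 ^ K) → V) (M : PM D V E F)
    (dE dW : V → D) (dU dN : V → V → D) (I : F → Prop) (M' : PM (DC M I) (VC V I) E' F')
    (y0 y1 : ℤ) (c : ℕ) (v₀ : VC V I) (A Q : ℕ → Finset (VC V I)),
    Base K h L f M dE dW dU dN I M' y0 y1 c v₀ A Q → ∀ (T : ℕ) (X : Finset (VC V I)) (w : V),
    L.row w = h + 1 → Sum.inl w ∈ X → (∀ s ≤ T, Sum.inl w ∉ A s) → ∃ R : Route M' A Q X T,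
    (∀ s ≤ T, tp L.row y0 (A s) < h → (R.Φ s : ℤ) = 2 * K + 2 + h - tp L.row y0 (A s)) ∧
    (∀ s < T, ∀ i, 1 ≤ i → i ≤ R.n s → ∃ v, R.p s i = Sum.inl v ∧
      min (tp L.row y0 (A s) + 2) (h + 1) ≤ L.row v) ∧
    (∀ s < T, R.p s 0 ∈ Q s → tp L.row y0 (A s) < h →
      tp L.row y0 (A (s + 1)) = tp L.row y0 (A s) ∧
      ∃ i, R.p s 0 = Sum.inl (f (tp L.row y0 (A s) + 1) i) ∧
        ((∀ q, ¬ I q) ∨ 1 ≤ s → Sum.inl (f (tp L.row y0 (A s)) i) ∈ A s)) ∧
    (∀ s < T, R.p s 0 ∈ Q s → ∃ v, R.p s 0 = Sum.inl v ∧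
      min (tp L.row y0 (A s) + 1) (h + 1) ≤ L.row v)

/-- **ROUTEB.** The lower route.  Proof: ROUTET for the situation turned by 180 degrees (FLIPB), and
TPF: `tp` of the turned situation is `h - bt`. -/
def StmtRouteB : Prop :=
  ∀ (K h : ℕ) (V D E F E' F' : Type) [Fintype V] [Fintype D] [Fintype E] [Fintype F]
    [Fintype E'] [Fintype F'] (L : Lay V) (f : ℤ → ZMod (3 * 2 ^ K) → V) (M : PM D V E F)
    (dE dW : V → D) (dU dN : V → V → D) (I : F → Prop) (M' : PM (DC M I) (VC V I) E' F')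
    (y0 y1 : ℤ) (c : ℕ) (v₀ : VC V I) (A Q : ℕ → Finset (VC V I)),
    Base K h L f M dE dW dU dN I M' y0 y1 c v₀ A Q → ∀ (T : ℕ) (X : Finset (VC V I)) (w : V),
    L.row w = -1 → Sum.inl w ∈ X → (∀ s ≤ T, Sum.inl w ∉ A s) → ∃ R : Route M' A Q X T,
    (∀ s ≤ T, 0 < bt L.row y1 (A s) → (R.Φ s : ℤ) = 2 * K + 2 + bt L.row y1 (A s)) ∧
    (∀ s < T, ∀ i, 1 ≤ i → i ≤ R.n s → ∃ v, R.p s i = Sum.inl v ∧
      L.row v ≤ max (bt L.row y1 (A s) - 2) (-1)) ∧
    (∀ s < T, R.p s 0 ∈ Q s → 0 < bt L.row y1 (A s) →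
      bt L.row y1 (A (s + 1)) = bt L.row y1 (A s) ∧
      ∃ i, R.p s 0 = Sum.inl (f (bt L.row y1 (A s) - 1) i) ∧
        ((∀ q, ¬ I q) ∨ 1 ≤ s → Sum.inl (f (bt L.row y1 (A s)) i) ∈ A s)) ∧
    (∀ s < T, R.p s 0 ∈ Q s → ∃ v, R.p s 0 = Sum.inl v ∧
      L.row v ≤ max (bt L.row y1 (A s) - 1) (-1))

/-- **COLX.** Columns.  Proof: `f r x` is adjacent to `f (r+1) x` for `0 ≤ r < h` (`upS`, `upT`, LAYAD,
CONEAD), `w₁` to `f h x` and `w₂` to `f 0 x`. -/
def StmtColX : Prop :=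
  ∀ (K h : ℕ) (V D E F E' F' : Type) [Fintype V] [Fintype D] [Fintype E] [Fintype F]
    [Fintype E'] [Fintype F'] (L : Lay V) (f : ℤ → ZMod (3 * 2 ^ K) → V) (M : PM D V E F)
    (dE dW : V → D) (dU dN : V → V → D) (I : F → Prop) (M' : PM (DC M I) (VC V I) E' F'),
    Host K h L f → LM L M dE dW dU dN → IsCone M I M' → ∀ (w₁ w₂ : V) (x : ZMod (3 * 2 ^ K)),
    L.up (f h x) w₁ → L.up w₂ (f 0 x) → ∀ (Q : ℕ → Finset (VC V I)) (T : ℕ),
    (∀ s ≤ T, Disjoint (Q s) (colX I h f w₁ w₂ x)) → Col M' Q T (colX I h f w₁ w₂ x)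

/-- **SIT.** Two routes to a column.

Proof. ROUTET and ROUTEB with `X = colX ..` (`row w₁ = h + 1`, `row w₂ = -1`), COLX.  `Far`: for
`i, j ≥ 1` the rows of `R₁.p s i` and `R₂.p s j` are `≥ min (t+2) (h+1)` and `≤ max (b-2) (-1)`, where
`t ≥ y0`, `b ≤ y1 ≤ y0 + 1`, `y0 ≥ 0`, `y1 ≤ h`; so they differ by at least `2`, and adjacent host
vertices have rows that differ by at most `1` (BASEF; `Ad` implies `FA`). -/
def StmtSit : Prop :=
  ∀ (K h : ℕ) (V D E F E' F' : Type) [Fintype V] [Fintype D] [Fintype E] [Fintype F]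
    [Fintype E'] [Fintype F'] (L : Lay V) (f : ℤ → ZMod (3 * 2 ^ K) → V) (M : PM D V E F)
    (dE dW : V → D) (dU dN : V → V → D) (I : F → Prop) (M' : PM (DC M I) (VC V I) E' F')
    (y0 y1 : ℤ) (c : ℕ) (v₀ : VC V I) (A Q : ℕ → Finset (VC V I)),
    Base K h L f M dE dW dU dN I M' y0 y1 c v₀ A Q → ∀ (w₁ w₂ : V) (x : ZMod (3 * 2 ^ K)),
    L.up (f h x) w₁ → L.up w₂ (f 0 x) → ∀ T : ℕ,
    (∀ s ≤ T, Disjoint (Q s) (colX I h f w₁ w₂ x)) →
    (∀ s ≤ T, Sum.inl w₁ ∉ A s) → (∀ s ≤ T, Sum.inl w₂ ∉ A s) →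
    ∃ R₁ R₂ : Route M' A Q (colX I h f w₁ w₂ x) T,
      Sit K h L f M dE dW dU dN I M' y0 y1 c v₀ A Q (colX I h f w₁ w₂ x) T R₁ R₂

/-! ## Geometry -/

/-- **TOPS.** The case of even `t` (squares between the rows `t` and `t + 1`, triangles above).

Proof. `N = 3 * 2^K`.  Vertices in the rows `t + 1`, `t + 2` are not in `A` (`rA`), vertices in row
`t + 2` are not in `O ⊆ Q` (`rQ`).  A dart `d` of `M` with `¬ I (fc d)`, both ends outside `O`, one end
outside `A`, whose face contains a vertex of `O`, gives `inl d ∈ nb M' O A` (CONEAD).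
Strip `t + 1` (odd, triangles, TRIF; so no face of `I`): let `n = nr O (t+1)`.
(a) for each `i` with `f (t+1) i ∈ O`: `dW (f (t+2) i)`: `n` darts.
(b) as `f (t+1) i ∈ O` for some `i` (`hd`) and not for all `i` (`col`), there is `i` with
`f (t+1) (i-1) ∈ O`, `f (t+1) i ∉ O`: the dart `dU (f (t+1) i) (f (t+2) i)`, and there is `i` with
`f (t+1) i ∉ O`, `f (t+1) (i+1) ∈ O`: the dart `dN (f (t+1) i) (f (t+2) (i+1))`.
Together `n + 2` darts in the strip `t + 1`.
Strip `t`: let `x₀` be the `x` of `hd`.  Let `m ≥ 1` be minimal such that `e = x₀ + m` has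
`f t e ∉ O` and `f (t+1) e ∉ O` (it exists by `col`), and `m' ≥ 1` minimal such that `w = x₀ - m'`
has this property.  `m + m' ≤ N`.  The column `e - 1` contains a vertex of `O` (if `m = 1` it is
`f (t+1) x₀`), also the column `w + 1`.
East square `φ` = face of `dE (f t (e-1))` (SQ: vertices in the columns `e - 1`, `e`).
`φ` is not in `I`: otherwise all its corners are adjacent in `M'` to some `inr q ∈ A`, so by `ev` its
corners in row `t + 1` are in `Q`.  If `f (t+1) (e-1) ∈ O` then `FA` and `closed` give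
`f (t+1) e ∈ O`, contradiction.  Otherwise `f t (e-1) ∈ O`, and `f (t+1) (e-1) ∈ Q` is adjacent to it, so
it is in `O`, contradiction.
Darts: (c) `dU (f t e) (f (t+1) e)` (its face is `φ`, by SQ).
(d) if both vertices of the column `e - 1` are in `O`: the pair `(f t (e-1), f (t+1) (e-1))`; `SqE M'` by
the dart of `φ` between them (CONESMALL: still a square in `M'`).  If only `f (t+1) (e-1) ∈ O`: the dart
`dE (f t (e-1))`; `f t e ∉ A`, because otherwise `f (t+1) e ∈ Q` by `ev`, so `f (t+1) e ∈ O` by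
`closed`.  If only `f t (e-1) ∈ O`: the dart `dW (f (t+1) (e-1))`, its ends are in row `t + 1`.
West square: the face `φ'` of `dE (f t w)` (columns `w`, `w + 1`), in the same way: the dart
`dN (f t w) (f (t+1) w)` and the pair `(f t (w+1), f (t+1) (w+1))` or the dart `dE (f t w)` or
`dW (f (t+1) w)`.
The four items are different: `dE (f t (e-1)) ≠ dE (f t w)` and `dW (f (t+1) (e-1)) ≠ dW (f (t+1) w)`
because `e - 1 ≠ w` (the column `e - 1` meets `O`, the column `w` does not).  If both (d) items are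
pairs then they are disjoint unless `e - 1 = w + 1`; then `m + m' = 2` in `ZMod N`, so
`m = m' = 1`, `e - 1 = x₀`, but `f t x₀ ∈ A` is not in `O`.
So the darts in the strips `t` and `t + 1` and the pairs are together `n + 2 + 2 + 2`. -/
def StmtTopS : Prop :=
  ∀ (K h : ℕ) (V D E F E' F' : Type) [Fintype V] [Fintype D] [Fintype E] [Fintype F]
    [Fintype E'] [Fintype F'] (L : Lay V) (f : ℤ → ZMod (3 * 2 ^ K) → V) (M : PM D V E F)
    (dE dW : V → D) (dU dN : V → V → D) (I : F → Prop) (M' : PM (DC M I) (VC V I) E' F')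
    (O Q A : Finset (VC V I)) (t : ℤ),
    TopH K h L f M dE dW dU dN I M' O Q A t → Even t → TopC L.row M I M' O A t

/-- **TOPT.** The case of odd `t` (triangles between the rows `t` and `t + 1`, squares above).

Proof. As in TOPS, vertices in the rows `t + 1`, `t + 2` are not in `A` and vertices in row `t + 2` are
not in `O`.  The faces in the strip `t` are triangles, so no face in the strips `t`, `t + 1` is in `I`
(`TopH.sq`: faces of `I` are squares in strips `≤ t`).  Let `n = nr O (t+1)`, `x₀` as in `hd`.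
Strip `t + 1` (SQ; the square of `dE (f (t+1) i)` has the columns `i`, `i + 1`): the set
`S ⊆ ZMod N` of the `i` with `f (t+1) i ∈ O` is not empty and not everything, so there are at least
`n + 1` elements `i` with `i ∈ S` or `i + 1 ∈ S`; for these the dart `dW (f (t+2) i)` is counted.
For some `i ∉ S` with `i - 1 ∈ S` the dart `dU (f (t+1) i) (f (t+2) i)`, and for some `i ∉ S` with
`i + 1 ∈ S` the dart `dN (f (t+1) i) (f (t+2) i)`.  Together `n + 3`.
Pair: `f t x₀ ∈ A`, so by `ev` `f (t+1) x₀` and `f (t+1) (x₀+1)` are in `Q`; the first one is in `O`, they are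
adjacent, so the second one is in `O` by `closed`.  The pair `(f (t+1) x₀, f (t+1) (x₀+1))` is an edge of
the square of `dE (f (t+1) x₀)`.
Strip `t`: for `m ≥ 0` let `g (2 m)` be the edge `f t (x₀+m) — f (t+1) (x₀+m+1)` and `g (2 m + 1)` the edge
`f t (x₀+m+1) — f (t+1) (x₀+m+1)`.  `g m` and `g (m+1)` are on a common triangle (TRIF), which is the
face to the west of `g (m+1)`, i.e. the face of the dart `dU` of `g (m+1)`, and which has no other
vertices than the ends of `g m` and `g (m+1)`.  `g 0` has an end in `O`; some `g m` has no end in `O`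
(`col`); let `m` be minimal; the dart `dU` of the edge `g m` is counted: its face contains a vertex of
`O`, its upper end is in row `t + 1`, outside `A`.  In the same way to the west from the edge
`f t x₀ — f (t+1) x₀`: edges `f t (x₀-m-1) — f (t+1) (x₀-m)` and `f t (x₀-m-1) — f (t+1) (x₀-m-1)`; the dart
`dN` of the first edge without end in `O` is counted.  Together `2`.
Total `n + 3 + 2 + 1`. -/
def StmtTopT : Prop :=
  ∀ (K h : ℕ) (V D E F E' F' : Type) [Fintype V] [Fintype D] [Fintype E] [Fintype F]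
    [Fintype E'] [Fintype F'] (L : Lay V) (f : ℤ → ZMod (3 * 2 ^ K) → V) (M : PM D V E F)
    (dE dW : V → D) (dU dN : V → V → D) (I : F → Prop) (M' : PM (DC M I) (VC V I) E' F')
    (O Q A : Finset (VC V I)) (t : ℤ),
    TopH K h L f M dE dW dU dN I M' O Q A t → ¬ Even t → TopC L.row M I M' O A t

/-- **ROWSC.** A face-connected set of host vertices does not skip a row.

Proof. Suppose that no vertex of `O` is in row `r`.  `X` = the vertices of `O` in rows `> r` is not empty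
and not `O`.  By `FConn` there are `u ∈ X`, `v ∈ O \ X` with `FA M' u v`, but their rows differ by at least
`2`, against BASEF. -/
def StmtRowsC : Prop :=
  ∀ (K h : ℕ) (V D E F E' F' : Type) [Fintype V] [Fintype D] [Fintype E] [Fintype F]
    [Fintype E'] [Fintype F'] (L : Lay V) (f : ℤ → ZMod (3 * 2 ^ K) → V) (M : PM D V E F)
    (dE dW : V → D) (dU dN : V → V → D) (I : F → Prop) (M' : PM (DC M I) (VC V I) E' F')
    (y0 y1 : ℤ) (c : ℕ) (v₀ : VC V I) (A Q : ℕ → Finset (VC V I)),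
    Base K h L f M dE dW dU dN I M' y0 y1 c v₀ A Q → ∀ (s : ℕ) (O : Finset (VC V I)),
    IsComp M' (Q s) O → ∀ (a b : V), Sum.inl a ∈ O → Sum.inl b ∈ O → ∀ r, L.row b ≤ r →
    r ≤ L.row a → 1 ≤ nr L.row O r

/-- **INTC.** The strips between the two heads at a harmful time.

Proof. By ARCX there are darts `g i` (`i ≤ k`) of `M'` in `bd M' C` with both ends outside `A s` and
`vt (g (i+1)) = tg (g i)`, from `R₁.p s 1` to `R₂.p s 1` or back.  All new vertices `inr q` are in `A s`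
(BASEF), so all ends are host vertices and `g i = inl d` with a dart `d` of `M` (a dart `inr _` has an
end `inr _`).  By `Sit.r1`, `Sit.r2`, `row (R₁.p s 1) ≥ min (t+2) (h+1) ≥ y + 1` and
`row (R₂.p s 1) ≤ max (b-2) (-1) ≤ y`.  Rows of the ends of a dart differ by at most `1`, so some
`g i = inl d` goes from row `y + 1` to row `y` or back.  By `cov`, `d = dU v k` or `d = dN v k` with
`row v = y` (`dE`, `dW` stay in a row), and `InStrip d y` by STRIP.
`¬ I (fc d)`: otherwise by CONEAD `Touch` means that an end of `inl d` or `inr q` is in `C`, which is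
false (`inr q ∈ A s`).  So `inl d ∈ nb M' C (A s)`, and this is enough for odd `y` (`S = {d}`,
`P = ∅`).
Let `y` be even; `v = f y i`, `k = f (y+1) i`; the face of `d` is the square of `dE (f y (i-1))` (if
`d = dU v k`) or of `dE (f y i)` (if `d = dN v k`), by SQ.  Let `j = i - 1` or `j = i + 1` be its other column.
`Touch`: `f y j ∈ C` or `f (y+1) j ∈ C`.  If both: `P = {(f y j, f (y+1) j)}`, `S = {d}`.
If only one of them, the horizontal edge of the square whose ends are the other one and the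
vertex of the column `i` in the same row has both ends outside `C`; the dart `d'` of this edge on the
square (`dE` for the lower, `dW` for the upper edge) is in `nb` (its end in the column `i` is an end
of `d` and so outside `A s`); `S = {d, d'}`. -/
def StmtIntC : Prop :=
  ∀ (K h : ℕ) (V D E F E' F' : Type) [Fintype V] [Fintype D] [Fintype E] [Fintype F]
    [Fintype E'] [Fintype F'] (L : Lay V) (f : ℤ → ZMod (3 * 2 ^ K) → V) (M : PM D V E F)
    (dE dW : V → D) (dU dN : V → V → D) (I : F → Prop) (M' : PM (DC M I) (VC V I) E' F')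
    (y0 y1 : ℤ) (c : ℕ) (v₀ : VC V I) (A Q : ℕ → Finset (VC V I)) (X : Finset (VC V I)) (T : ℕ)
    (R₁ R₂ : Route M' A Q X T),
    Sit K h L f M dE dW dU dN I M' y0 y1 c v₀ A Q X T R₁ R₂ → ∀ (s : ℕ) (C : Finset (VC V I)),
    s < T → IsComp M' (Q s) C → R₁.p s 0 ∈ C → R₂.p s 0 ∈ C → hf M' C (A s) ≤ 3 →
    ∀ y : ℤ, max (bt L.row y1 (A s)) 0 ≤ y → y < min (tp L.row y0 (A s)) h →
    ∃ (S : Finset D) (P : Finset (V × V)),
      (∀ d ∈ S, Sum.inl d ∈ nb M' C (A s) ∧ InStrip M L.row d y) ∧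
      (∀ p ∈ P, Sum.inl p.1 ∈ C ∧ Sum.inl p.2 ∈ C ∧ SqE M' (Sum.inl p.1) (Sum.inl p.2) ∧
        L.row p.1 = y ∧ L.row p.2 = y + 1) ∧ P.card ≤ 1 ∧ (¬ Even y → P = ∅) ∧
      1 + (if Even y then 1 else 0) ≤ S.card + P.card

/-- **GEO.** All boundary darts and pairs at a harmful time (fine case).

Proof. Let `t`, `b` be the highest and lowest row (`2 ≤ b ≤ t ≤ h - 2`, BASEF).
TOP: `TopH` for `O = C`, `Q = Q s`, `A = A s`, `t`: `sq` by BASEF (`y0 ≤ t`); `rA`, `rQ` by TPF, BASEF; `ev`: if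
`u ∈ A s`, `Ad u (inl v)`, `row v = t + 1`, then `inl v ∈ A (s+1)` or `∈ Q s` by `spread`, and the first is
impossible because `tp (A (s+1)) = t` (`Sit.e1`: the head is in `C ⊆ Q s`); `hd` by `Sit.e1`; `col` by
`Sit.xx` and `Col.disj`.  TOPS or TOPT gives `TopC`.
BOTTOM: the same for the layout `L.flip h` (FLIP) with `t' = h - b`: `TopH` with `f' = flipF h f` etc.
(`sq`: strip `y` of `L` is strip `h - 1 - y` of `L.flip h`; `y0 ≥ b - 1` because `b ≤ y1 ≤ y0 + 1`;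
`ev`, `hd` by `Sit.e2`).  `TopC` for the flip says: darts in the strips `b - 1` and `b - 2` (of `L`) and
pairs with rows in `{b - 1, b}` if `h - b` is even, i.e. `b` odd, and with both rows `b - 1` if `b` is
even; together `≥ nr C (b-1) + 6`.
INT: for each `y ∈ [b, t-1]` INTC.
All these sets of darts are disjoint (the strip of a dart is unique), `inl` is injective.  All pairs
are disjoint: INTC pairs have rows `{y, y+1}` with `y` even, `b ≤ y ≤ t - 1`; TOP pairs: rows in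
`{t, t+1}` if `t` is even (then `y + 1 ≤ t - 1`), both rows `t + 1` if `t` is odd (`y + 1 ≤ t`); BOTTOM
pairs: rows in `{b-1, b}` if `b` is odd (then `y ≥ b + 1`), both `b - 1` if `b` is even; TOP and
BOTTOM pairs: if `t = b` one of the two types has both rows outside `{b}`.  Let `P` be the union (under
`inl`).  Count: `(nr C (t+1) + 6) + (nr C (b-1) + 6) + (t - b) + #even`. -/
def StmtGeo : Prop :=
  ∀ (K h : ℕ) (V D E F E' F' : Type) [Fintype V] [Fintype D] [Fintype E] [Fintype F]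
    [Fintype E'] [Fintype F'] (L : Lay V) (f : ℤ → ZMod (3 * 2 ^ K) → V) (M : PM D V E F)
    (dE dW : V → D) (dU dN : V → V → D) (I : F → Prop) (M' : PM (DC M I) (VC V I) E' F')
    (y0 y1 : ℤ) (c : ℕ) (v₀ : VC V I) (A Q : ℕ → Finset (VC V I)) (X : Finset (VC V I)) (T : ℕ)
    (R₁ R₂ : Route M' A Q X T),
    Sit K h L f M dE dW dU dN I M' y0 y1 c v₀ A Q X T R₁ R₂ → ∀ (s : ℕ) (C : Finset (VC V I)),
    s < T → IsComp M' (Q s) C → R₁.p s 0 ∈ C → R₂.p s 0 ∈ C → hf M' C (A s) ≤ 3 →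
    ((∀ q, ¬ I q) ∨ 1 ≤ s) → ∀ t b : ℤ, t = tp L.row y0 (A s) → b = bt L.row y1 (A s) →
    2 ≤ b → t + 2 ≤ h → ∃ P, Pairs M' C P ∧
      t - b + 12 + (((Finset.Ico b t).filter fun y => Even y).card : ℤ) + nr L.row C (t + 1) +
        nr L.row C (b - 1) ≤ (nb M' C (A s)).card + P.card

/-! ## Harmful times -/

/-- **NUM.** The inequality at the first harmful time (fine case), with two more units if there is
no event at time `0` and some component `O₀` has `hf M' O₀ (A 0) ≥ 2`.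

Proof. Let `E = |Q s|`, `ev = R₁.ev s + R₂.ev s`.  TOT (`|bd O| ≤ 4 + 3 |O|` for all components by W with
`P = ∅`, BASEF: the elements of `Q s` are host vertices with link `≤ 7`): `2 ev + 3 |C| ≤ 3 E + be C (A s)`.
`be C (A s) + |nb C (A s)| = |bd C|` and `|bd C| + |P| ≤ 4 + 3 |C|` by W.  With GEO:
`2 ev ≤ 3 E + 4 - (t - b + 12 + #even + nt + nb)`.
TIME for both routes with `Sit.Φ1`, `Sit.Φ2` at the times `s` and `0` (`tp (A 0) = y0 ≤ t < h`,
`bt (A 0) = y1 ≥ b > 0`): `s ≤ t - y0 + R₁.ev s`, `s ≤ y1 - b + R₂.ev s`; sum: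
`2 s ≤ (t - b) + (y1 - y0) + ev`.  Twice this and the previous inequality give the claim.  In the second
claim use the third part of TOT (`s ≥ 1`), `2 ev + 2 + 3 |C| ≤ 3 E + be C (A s)`.
Last claim: the elements of `C` are host vertices in rows `b - 1, …, t + 1` (BASEF). -/
def StmtNum : Prop :=
  ∀ (K h : ℕ) (V D E F E' F' : Type) [Fintype V] [Fintype D] [Fintype E] [Fintype F]
    [Fintype E'] [Fintype F'] (L : Lay V) (f : ℤ → ZMod (3 * 2 ^ K) → V) (M : PM D V E F)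
    (dE dW : V → D) (dU dN : V → V → D) (I : F → Prop) (M' : PM (DC M I) (VC V I) E' F')
    (y0 y1 : ℤ) (c : ℕ) (v₀ : VC V I) (A Q : ℕ → Finset (VC V I)) (X : Finset (VC V I)) (T : ℕ)
    (R₁ R₂ : Route M' A Q X T),
    Sit K h L f M dE dW dU dN I M' y0 y1 c v₀ A Q X T R₁ R₂ → ∀ (s : ℕ) (C : Finset (VC V I)),
    s < T → (∀ r < s, ¬ Harm R₁ R₂ r) → IsComp M' (Q s) C → R₁.p s 0 ∈ C → R₂.p s 0 ∈ C →
    hf M' C (A s) ≤ 3 → ((∀ q, ¬ I q) ∨ 1 ≤ s) → ∀ t b : ℤ, t = tp L.row y0 (A s) →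
    b = bt L.row y1 (A s) → 2 ≤ b → t + 2 ≤ h →
    4 * (s : ℤ) + 8 + (((Finset.Ico b t).filter fun y => Even y).card : ℤ) +
      nr L.row C (t + 1) + nr L.row C (b - 1) ≤ (t - b) + 2 * (y1 - y0) + 3 * (Q s).card ∧
    (1 ≤ s → ¬ R₁.Ev 0 → ¬ R₂.Ev 0 → (∃ O₀, IsComp M' (Q s) O₀ ∧ 2 ≤ hf M' O₀ (A 0)) →
      4 * (s : ℤ) + 10 + (((Finset.Ico b t).filter fun y => Even y).card : ℤ) +
        nr L.row C (t + 1) + nr L.row C (b - 1) ≤ (t - b) + 2 * (y1 - y0) + 3 * (Q s).card) ∧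
    (C.card : ℤ) = nr L.row C (t + 1) + nr L.row C (b - 1) +
      ∑ r ∈ Finset.Icc b t, (nr L.row C r : ℤ)

/-- **BONUS.** The first step in case (B).

Proof. `A 0 = {inr q}`.  Let `d₀, d₁, d₂, d₃` be the darts of the square, `ph dᵢ = dᵢ₊₁` (indices mod
`4`), with the corners `cᵢ = inl (vt dᵢ)`.  `O` contains a corner (`u ∈ Q 0` is adjacent to the new vertex by
`adjQ`), but not all corners: by `esc` some corner is in `A 1`.  So there are at least two `i` such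
that exactly one of `cᵢ, cᵢ₊₁` is in `O`.  For such an `i` the triangle of `inl dᵢ` in `M'`
(`inl dᵢ, inr (dᵢ₊₁, false), inr (dᵢ, true)`, `IsCone.fi`) contains a dart between the new vertex and the
corner outside `O` (`inr (dᵢ₊₁, false)` if `cᵢ ∈ O`, `inr (dᵢ, true)` if `cᵢ₊₁ ∈ O`); it is in `bd O` and
exactly one end is in `A 0`.  These darts lie on different triangles. -/
def StmtBonus : Prop :=
  ∀ (K h : ℕ) (V D E F E' F' : Type) [Fintype V] [Fintype D] [Fintype E] [Fintype F]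
    [Fintype E'] [Fintype F'] (L : Lay V) (f : ℤ → ZMod (3 * 2 ^ K) → V) (M : PM D V E F)
    (dE dW : V → D) (dU dN : V → V → D) (I : F → Prop) (M' : PM (DC M I) (VC V I) E' F')
    (y0 y1 : ℤ) (c : ℕ) (v₀ : VC V I) (A Q : ℕ → Finset (VC V I)),
    Base K h L f M dE dW dU dN I M' y0 y1 c v₀ A Q → (∃ q, I q) → ∀ (s : ℕ)
    (O : Finset (VC V I)), IsComp M' (Q s) O → (∃ u ∈ Q 0, u ∈ O) → 2 ≤ hf M' O (A 0)

/-- **CORN.** Events at time `0` in case (B).

Proof. `j` as in `Base.start`; the corners of the square are `f y0 j, f y0 (j+1), f y1 j, f y1 (j+1)` (SQ);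
they are adjacent to `v₀ ∈ A 0`, so each of them is in `A 1` or in `Q 0`.  If `R₁.p 0 0 ∈ Q 0` then
`tp (A 1) = tp (A 0) = y0` by `Sit.e1` (`y0 < h`), so the upper corners are not in `A 1`.  The same
for `R₂` and the lower corners.  `|Q 0| ≤ 3` by `Fire.card`, so not all four corners are in `Q 0` (they are
different): so `R₁.p 0 0 ∈ Q 0` and `R₂.p 0 0 ∈ Q 0` are not both true, and if one of them is true
then one of the other corners is in `A 1`, which gives the bound for `bt (A 1)` or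
`tp (A 1)`. -/
def StmtCorn : Prop :=
  ∀ (K h : ℕ) (V D E F E' F' : Type) [Fintype V] [Fintype D] [Fintype E] [Fintype F]
    [Fintype E'] [Fintype F'] (L : Lay V) (f : ℤ → ZMod (3 * 2 ^ K) → V) (M : PM D V E F)
    (dE dW : V → D) (dU dN : V → V → D) (I : F → Prop) (M' : PM (DC M I) (VC V I) E' F')
    (y0 y1 : ℤ) (c : ℕ) (v₀ : VC V I) (A Q : ℕ → Finset (VC V I)) (X : Finset (VC V I)) (T : ℕ)
    (R₁ R₂ : Route M' A Q X T),
    Sit K h L f M dE dW dU dN I M' y0 y1 c v₀ A Q X T R₁ R₂ → (∃ q, I q) → 0 < T →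
    ¬ (R₁.p 0 0 ∈ Q 0 ∧ R₂.p 0 0 ∈ Q 0) ∧
    (R₁.p 0 0 ∈ Q 0 → bt L.row y1 (A 1) ≤ y0 ∧
      ∃ j, Sum.inl (f y1 j) ∈ Q 0 ∧ Sum.inl (f y1 (j + 1)) ∈ Q 0) ∧
    (R₂.p 0 0 ∈ Q 0 → y1 ≤ tp L.row y0 (A 1) ∧
      ∃ j, Sum.inl (f y0 j) ∈ Q 0 ∧ Sum.inl (f y0 (j + 1)) ∈ Q 0)

/-- **FINE.** There is no first harmful time in the fine case.

Proof. Suppose `Harm` at `s` with the component `C` of `Q s`, `E = |Q s| ≤ c + s + 1`, `H = t - b`,
`nt = nr C (t+1) ≥ 1`, `nb = nr C (b-1) ≥ 1` (the heads are in `C`, in the rows `t + 1` and `b - 1`, by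
`Sit.e1`, `Sit.e2`), and `nr C r ≥ 1` for `b ≤ r ≤ t` by ROWSC.  So `|C| ≥ nt + nb + H + 1`, and `|C| ≤ E`.
If `I` is not empty then `s ≥ 1` by CORN (both heads are in `Q s`).  NUM: `4 s + 8 + #even + nt + nb ≤
H + 2 (y1 - y0) + 3 E`.
(A) `y1 = y0`, `c ≤ 1`: `4 s ≤ H - 8 - nt - nb + 3 E ≤ 4 E - 9 - 2 (nt + nb) ≤ 4 (s + 2) - 13`.
(B) `y1 = y0 + 1`.  If `c ≤ 1`: `4 s ≤ 4 E - 7 - 2 (nt + nb) ≤ 4 (s + 2) - 11`.
Let `c = 2`, `E ≤ s + 3`.  If there is no event at time `0`: `Q 0` is not empty; let `u ∈ Q 0 ⊆ Q s` and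
`O₀` its component in `Q s`; by BONUS and the second part of NUM `4 s ≤ 4 E - 9 - 2 (nt + nb) ≤
4 (s + 3) - 13`.
If `R₁.p 0 0 ∈ Q 0`: by CORN `b ≤ bt (A 1) ≤ y0` and two adjacent vertices `u, u'` in row `y1` are in
`Q 0 ⊆ Q s`.  They are both in `C` or both not in `C` (`closed`).  If not: `|C| ≤ E - 2`, so
`4 s ≤ 4 E - 9 - 2 (nt + nb)`.  If they are in `C` and `t = y0` (`t ≥ y0` always): `nt ≥ 2`,
`4 s ≤ 4 E - 7 - 2 (nt + nb) ≤ 4 E - 13`.  If they are in `C` and `t ≥ y1`: `nr C y1 ≥ 2` with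
`b ≤ y1 ≤ t`, so `|C| ≥ nt + nb + H + 2`, and `#even ≥ 1` because `y0 ∈ [b, t-1]` is even; so
`4 s ≤ 4 E - 9 - 2 (nt + nb)`.  In all cases `4 s ≤ 4 E - 13 ≤ 4 (s + 3) - 13`.
If `R₂.p 0 0 ∈ Q 0`: the same, turned: `t ≥ y1`, two adjacent vertices in row `y0` in `Q 0`; if in `C`: `b = y1`
gives `nb ≥ 2`; `b ≤ y0` gives `nr C y0 ≥ 2` and `#even ≥ 1`. -/
def StmtFine : Prop :=
  ∀ (K h : ℕ) (V D E F E' F' : Type) [Fintype V] [Fintype D] [Fintype E] [Fintype F]
    [Fintype E'] [Fintype F'] (L : Lay V) (f : ℤ → ZMod (3 * 2 ^ K) → V) (M : PM D V E F)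
    (dE dW : V → D) (dU dN : V → V → D) (I : F → Prop) (M' : PM (DC M I) (VC V I) E' F')
    (y0 y1 : ℤ) (c : ℕ) (v₀ : VC V I) (A Q : ℕ → Finset (VC V I)) (X : Finset (VC V I)) (T : ℕ)
    (R₁ R₂ : Route M' A Q X T),
    Sit K h L f M dE dW dU dN I M' y0 y1 c v₀ A Q X T R₁ R₂ → ∀ s < T,
    (∀ r < s, ¬ Harm R₁ R₂ r) → 2 ≤ bt L.row y1 (A s) → tp L.row y0 (A s) + 2 ≤ h →
    ¬ Harm R₁ R₂ s

/-- **CRUDE.** There is no first harmful time in the crude case.

Proof. Let `t`, `b` be the rows of the fire, `tf = min t h`, `bf = max b 0`, `H = tf - bf ≥ -1`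
(`t ≥ y0`, `b ≤ y1 ≤ y0 + 1`).  `tp (A s) ≤ y0 + s` and `bt (A s) ≥ y1 - s` by BASEF, so
`s ≥ 16 K + 58` (`t ≥ h - 1` or `b ≤ 1`, and `16 K + 60 ≤ y0`, `y1 + 16 K + 60 ≤ h`).
Suppose `Harm` at `s` with `C`, `E = |Q s| ≤ s + 3`.
(1) INTC for all `y ∈ [bf, tf - 1]`: the sets of darts are disjoint, the pairs are disjoint (for
even `y` the rows `{y, y+1}`), so there is `P` with `Pairs M' C P` and
`2 (|nb C (A s)| + |P|) ≥ 3 H - 1` (an interval of `H` integers contains at least `(H-1)/2` even ones).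
(2) `|C| ≥ H + 1` by ROWSC: the heads are in `C`, in rows `≥ min (t+1) (h+1) ≥ tf` and
`≤ max (b-1) (-1) ≤ bf` (`Sit.h1`, `Sit.h2`).
(3) as in NUM: `2 ev + 3 |C| ≤ 3 E + be C`, `be C + |nb C| = |bd C| ≤ 4 + 3 |C| - |P|`; so
`2 ev ≤ 3 E + 4 - (|nb C| + |P|)`.
(4) TIME: `s + Φ₁ s ≤ Φ₁ 0 + ev₁` with `Φ₁ 0 = 2 K + 2 + h - y0`, and `Φ₁ s = 2 K + 2 + h - t` if
`t < h`, `Φ₁ s ≥ 0` if `t ≥ h`; in both cases `s ≤ tf - y0 + 2 K + 2 + ev₁`.  The same for the second route: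
`s ≤ y1 - bf + 2 K + 2 + ev₂`.  So `2 s ≤ H + 1 + 4 K + 4 + ev`.
(5) `8 s ≤ 4 H + 20 + 16 K + 4 ev ≤ 4 H + 20 + 16 K + 6 E + 8 - (3 H - 1) ≤ H + 16 K + 29 + 6 (s + 3)`
and `H + 1 ≤ |C| ≤ E ≤ s + 3`; so `2 s ≤ (s + 2) + 16 K + 47`, `s ≤ 16 K + 49`, against
`s ≥ 16 K + 58`. -/
def StmtCrude : Prop :=
  ∀ (K h : ℕ) (V D E F E' F' : Type) [Fintype V] [Fintype D] [Fintype E] [Fintype F]
    [Fintype E'] [Fintype F'] (L : Lay V) (f : ℤ → ZMod (3 * 2 ^ K) → V) (M : PM D V E F)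
    (dE dW : V → D) (dU dN : V → V → D) (I : F → Prop) (M' : PM (DC M I) (VC V I) E' F')
    (y0 y1 : ℤ) (c : ℕ) (v₀ : VC V I) (A Q : ℕ → Finset (VC V I)) (X : Finset (VC V I)) (T : ℕ)
    (R₁ R₂ : Route M' A Q X T),
    Sit K h L f M dE dW dU dN I M' y0 y1 c v₀ A Q X T R₁ R₂ → 16 * (K : ℤ) + 60 ≤ y0 →
    y1 + 16 * K + 60 ≤ h → ∀ s < T, (∀ r < s, ¬ Harm R₁ R₂ r) →
    (bt L.row y1 (A s) ≤ 1 ∨ (h : ℤ) ≤ tp L.row y0 (A s) + 1) → ¬ Harm R₁ R₂ s

/-- **ENDT.** The two routes cannot exist until time `T = 2 h + 8 K + 20`.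

Proof. By FINE and CRUDE and induction there is no harmful time `< T`.  TOT (first part, `t = T`; the
bound for `|bd O|` by W and BASEF): `2 (ev₁ + ev₂) ≤ 3 |Q T| ≤ 3 (T + 3)`.  TIME (`t = T`) for both routes:
`2 T ≤ Φ₁ 0 + Φ₂ 0 + ev₁ + ev₂`, `Φ₁ 0 = 2 K + 2 + h - y0`, `Φ₂ 0 = 2 K + 2 + y1` by `Sit.Φ1`, `Sit.Φ2`
(`tp (A 0) = y0 < h`, `bt (A 0) = y1 > 0`).  So `4 T ≤ 2 (4 K + 5 + h) + 3 T + 9`,
`T ≤ 2 h + 8 K + 19`. -/
def StmtEndT : Prop :=
  ∀ (K h : ℕ) (V D E F E' F' : Type) [Fintype V] [Fintype D] [Fintype E] [Fintype F]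
    [Fintype E'] [Fintype F'] (L : Lay V) (f : ℤ → ZMod (3 * 2 ^ K) → V) (M : PM D V E F)
    (dE dW : V → D) (dU dN : V → V → D) (I : F → Prop) (M' : PM (DC M I) (VC V I) E' F')
    (y0 y1 : ℤ) (c : ℕ) (v₀ : VC V I) (A Q : ℕ → Finset (VC V I)) (X : Finset (VC V I)) (T : ℕ)
    (R₁ R₂ : Route M' A Q X T),
    Sit K h L f M dE dW dU dN I M' y0 y1 c v₀ A Q X T R₁ R₂ → 16 * (K : ℤ) + 60 ≤ y0 →
    y1 + 16 * K + 60 ≤ h → T ≠ 2 * h + 8 * K + 20

/-- **HT.** The columns without protected vertices burn.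

Proof. Let `T = 2 h + 8 K + 20`.  If `inl w₁ ∉ A T` and `inl w₂ ∉ A T` then (`A` is increasing) SIT and ENDT
give a contradiction.  So some vertex of the column is in `A T`.  The column is connected: it is
the path `w₁, f h x, …, f 0 x, w₂` with `h + 3` vertices; by `Fire.spread` (the column is disjoint
from `Q s` for `s ≤ 3 h + 8 K + 23`) all vertices at distance `i` on the path from a vertex in `A T` are in
`A (T + i)`; `i ≤ h + 2`. -/
def StmtHT : Prop :=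
  ∀ (K h : ℕ) (V D E F E' F' : Type) [Fintype V] [Fintype D] [Fintype E] [Fintype F]
    [Fintype E'] [Fintype F'] (L : Lay V) (f : ℤ → ZMod (3 * 2 ^ K) → V) (M : PM D V E F)
    (dE dW : V → D) (dU dN : V → V → D) (I : F → Prop) (M' : PM (DC M I) (VC V I) E' F')
    (y0 y1 : ℤ) (c : ℕ) (v₀ : VC V I) (A Q : ℕ → Finset (VC V I)),
    Base K h L f M dE dW dU dN I M' y0 y1 c v₀ A Q → 16 * (K : ℤ) + 60 ≤ y0 →
    y1 + 16 * K + 60 ≤ h → ∀ (w₁ w₂ : V) (x : ZMod (3 * 2 ^ K)),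
    L.up (f h x) w₁ → L.up w₂ (f 0 x) →
    (∀ s ≤ 3 * h + 8 * K + 23, Disjoint (Q s) (colX I h f w₁ w₂ x)) →
    ∀ u ∈ colX I h f w₁ w₂ x, u ∈ A (3 * h + 8 * K + 23)

end Pool.Agent.Helper74.UB
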