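import Pool.Agent.Helper74.UB.Defs5

/-!
# UB, part 5: the gadget graph and the firefighter process

Definitions in `Defs`, `Defs3`, `Defs4`, `Defs5`.  `N = 3 * 2^K` is the length of the flat rows.
-/

namespace Pool.Agent.Helper74.UB

open Finset Equiv Helper28.VF
open Pool.Agent.Helper34.FF (burn prot Legal saved sn rho)
open scoped Classical

/-! ## The process -/

/-- **PB.** Protected vertices do not burn.

Proof. `prot`, `burn` are increasing.  Suppose `v ∈ prot σ s ∩ burn G v₀ σ t`.  `v ∈ σ r` for some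
`1 ≤ r ≤ s`, and `v ∉ burn (r - 1)` by `Legal`.  So `t ≥ r` and `v` is burnt at some time `t' + 1` with
`r ≤ t' + 1 ≤ t`, `v ∉ burn t'`; then `v ∉ prot (t' + 1)`, but `v ∈ σ r ⊆ prot (t' + 1)`.
`|prot σ t| ≤ t`: union of `t` sets with at most one element. -/
def StmtPB : Prop :=
  ∀ (V : Type) [Fintype V] (G : SimpleGraph V) (v₀ : V) (σ : ℕ → Finset V), Legal G 1 v₀ σ →
    (∀ s t, Disjoint (prot σ s) (burn G v₀ σ t)) ∧
    (∀ s t, s ≤ t → prot σ s ⊆ prot σ t ∧ burn G v₀ σ s ⊆ burn G v₀ σ t) ∧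
    (∀ t, (prot σ t).card ≤ t) ∧
    (∀ t u v, u ∈ burn G v₀ σ t → G.Adj u v → v ∉ prot σ (t + 1) → v ∈ burn G v₀ σ (t + 1))

/-- **MKF.** The fire for given protected sets.  Proof: unfold the definitions. -/
def StmtMkF : Prop :=
  ∀ (D V E F : Type) [Fintype D] [Fintype V] [Fintype E] [Fintype F] (M : PM D V E F)
    (c : ℕ) (v₀ : V) (R : ℕ → Finset V), (∀ s, R s ⊆ R (s + 1)) → (∀ s, (R s).card ≤ c + s + 1) →
    (∀ s t, Disjoint (R s) (fA M R v₀ t)) → (∃ v, Ad M v₀ v ∧ v ∉ R 0 ∧ v ≠ v₀) →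
    Fire M c v₀ (fA M R v₀) (fQ M R v₀)

/-- **REDA.** Reduction, case (A).

Let the host vertex `v` burn at time `r ≤ 1`.  Proof.  `R s` = all `inl u` with
`inl (inl u) ∈ prot σ (s + 1 + r)`, `A = fA M' R (inl v)`, `Q = fQ M' R (inl v)`.  `|R s| ≤ s + 1 + r` by
PB.  By induction every `inl u ∈ A s` has `inl (inl u) ∈ burn (s + r)` (`Ad M' (inl u) (inl u')` iff
`Ad M u u'` by CONEAD; then `inl (inl u)`, `inl (inl u')` are adjacent in `GS M`, `u ≠ u'` by `noloop`; PB
last part).  There are no elements `inr _` (`I` is empty).  So `R s` and `A t` are disjoint by PB.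
`v` has at least three neighbours (`e v`, `e⁻¹ v`, an upper one; `Ax.e1, e2, ul`, `row v ≤ h < r1`), and
`|R 0| ≤ 2`; so one neighbour is not in `R 0`.  MKF gives the fire.  `Base`: case (A) with `c = r`. -/
def StmtRedA : Prop :=
  ∀ (K h : ℕ) (V D E F E' F' : Type) [Fintype V] [Fintype D] [Fintype E] [Fintype F]
    [Fintype E'] [Fintype F'] (L : Lay V) (f : ℤ → ZMod (3 * 2 ^ K) → V) (M : PM D V E F)
    (dE dW : V → D) (dU dN : V → V → D) (I : F → Prop) (M' : PM (DC M I) (VC V I) E' F'),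
    Host K h L f → LM L M dE dW dU dN → IsCone M I M' → (∀ q, ¬ I q) →
    ∀ (v₀ : GV M) (σ : ℕ → Finset (GV M)), Legal (GS M) 1 v₀ σ → ∀ (v : V) (r : ℕ),
    0 ≤ L.row v → L.row v ≤ h → r ≤ 1 → Sum.inl (Sum.inl v) ∈ burn (GS M) v₀ σ r →
    ∃ A Q R : ℕ → Finset (VC V I),
      Base K h L f M dE dW dU dN I M' (L.row v) (L.row v) r (Sum.inl v) A Q ∧
      (∀ s, Q s ⊆ R s) ∧ (∀ s, R s ⊆ R (s + 1)) ∧ (∀ s, (R s).card ≤ r + s + 1) ∧
      ∀ s u, Sum.inl u ∈ A s → Sum.inl (Sum.inl u) ∈ burn (GS M) v₀ σ (s + 2)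

/-- **REDB.** Reduction, case (B).

Let the centre `q` of the square of `dE (f y j)` burn at time `r ≤ 1`, and if `r = 1` let some corner of
the square be protected at time `1`.  Proof.  `R s` = all `inl u` with
`inl (inl u) ∈ prot σ (s + 2 + r)`, and all `inl (vt d)` with `fc d = q`, `inr d ∈ prot σ (1 + r)`.
`|R s| ≤ s + 2 + r`: `R s` is contained in the image of `prot σ (s + 2 + r)` under
`inl (inl u) ↦ inl u`, `inr d ↦ inl (vt d)`.  `A = fA M' R (inr q)`, `Q = fQ M' R (inr q)`.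
Claim: for `s ≥ 1`, `inl u ∈ A s` implies `inl (inl u) ∈ burn (s + 1 + r)`.  `s = 1`: `u` is a corner,
`u = vt d`, `fc d = q` (CONEAD), `T4 M d` (SQ), `inl u ∉ R 0`; so `inr d ∉ prot (1 + r)`, hence
`inr d ∈ burn (1 + r)` (adjacent to the centre), and `inl (inl u) ∉ prot (2 + r)`, hence
`inl (inl u) ∈ burn (2 + r)`.  Step `s → s + 1`, `s ≥ 1`: if `u` is adjacent to a host vertex of `A s` use PB;
if `u` is a corner outside `R s ⊇ R 0` then `inl u ∈ A 1`.
Disjoint: elements `inl u ∈ R s` with `inl (inl u)` protected never burn (PB); the elements `inl (vt d)`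
of the second kind are in `R 0`, and no element of `R 0` is in `A t` (induction; `R 0 ⊆ R t`).
The square has four different corners (SQ) and `|R 0| ≤ 3`, so one corner is not in `R 0`.
If `r = 1` the protected corner is in `R 0` and adjacent to `inr q`, so `Q 0` is not empty.
`Base`: case (B) with `c = 1 + r`. -/
def StmtRedB : Prop :=
  ∀ (K h : ℕ) (V D E F E' F' : Type) [Fintype V] [Fintype D] [Fintype E] [Fintype F]
    [Fintype E'] [Fintype F'] (L : Lay V) (f : ℤ → ZMod (3 * 2 ^ K) → V) (M : PM D V E F)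
    (dE dW : V → D) (dU dN : V → V → D) (I : F → Prop) (M' : PM (DC M I) (VC V I) E' F'),
    Host K h L f → LM L M dE dW dU dN → IsCone M I M' → ∀ (y : ℤ) (j : ZMod (3 * 2 ^ K)),
    (∀ q, I q ↔ q = M.fc (dE (f y j))) → 0 ≤ y → y < h → Even y →
    ∀ (v₀ : GV M) (σ : ℕ → Finset (GV M)), Legal (GS M) 1 v₀ σ →
    ∀ (q : {q : F // IsSq M q}) (r : ℕ), q.1 = M.fc (dE (f y j)) → r ≤ 1 →
    Sum.inl (Sum.inr q) ∈ burn (GS M) v₀ σ r →
    (r = 1 → ∃ d, M.fc d = q.1 ∧ Sum.inl (Sum.inl (M.vt d)) ∈ prot σ 1) →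
    ∃ (A Q R : ℕ → Finset (VC V I)) (v₁ : VC V I),
      Base K h L f M dE dW dU dN I M' y (y + 1) (1 + r) v₁ A Q ∧
      (∀ s, Q s ⊆ R s) ∧ (∀ s, R s ⊆ R (s + 1)) ∧ (∀ s, (R s).card ≤ 1 + r + s + 1) ∧
      ∀ s u, Sum.inl u ∈ A s → Sum.inl (Sum.inl u) ∈ burn (GS M) v₀ σ (s + 2)

/-- **BADX.** Few columns meet a small set.

Proof. For `a ∈ R` at most three `x` have `a ∈ colX I h f (w₁ x) (w₂ x) x`: `a = inl v`; if
`0 ≤ row v ≤ h` then `a = inl (f r x)` only for `r = row v` and one `x` (`Flat.inj`), and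
`a ≠ inl (w₁ x), inl (w₂ x)` (rows `h + 1`, `-1`).  If `row v = h + 1`: `v = w₁ x`, so `up (f h x) v`, at most
three `x` by `dn3` and `inj`; if `row v = -1`: `up v (f 0 x)`, at most three by `up3`. -/
def StmtBadX : Prop :=
  ∀ (K h : ℕ) (V F : Type) [Fintype V] (L : Lay V) (f : ℤ → ZMod (3 * 2 ^ K) → V)
    [Fintype (ZMod (3 * 2 ^ K))],
    Host K h L f → ∀ (I : F → Prop) (w₁ w₂ : ZMod (3 * 2 ^ K) → V),
    (∀ x, L.up (f h x) (w₁ x)) → (∀ x, L.up (w₂ x) (f 0 x)) → ∀ R : Finset (VC V I),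
    (univ.filter fun x => ¬ Disjoint R (colX I h f (w₁ x) (w₂ x) x)).card ≤ 3 * R.card

/-- **BURNT.** The host vertices that do not burn.

Proof. Let `T = 3 h + 8 K + 23`.
Reduction: (i) `v₀ = inl (inl v)`: REDA with `r = 0`.  (ii) `v₀ = inl (inr q)`: the darts of `q` are squares,
so `q` is the face of some `dE (f y j)` with `y` even, `0 ≤ y < h` (STRIP and SQ); REDB with `r = 0`; `Typ`
gives `16 K + 60 ≤ y`, `y + 1 ≤ h - 16 K - 60`.  (iii) `v₀ = inr d`, `inl (inl (vt d)) ∉ prot σ 1`: then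
`inl (inl (vt d)) ∈ burn 1`; REDA with `v = vt d`, `r = 1`.  (iv) `v₀ = inr d`,
`inl (inl (vt d)) ∈ prot σ 1 = σ 1`: as `|σ 1| ≤ 1` the centre of the square is not in `prot σ 1`, so it is in
`burn 1`; REDB with `r = 1`.  (The cones exist by CONE.)  In all cases `|R T| ≤ T + 3`.
Choose `w₁ x`, `w₂ x` (`Ax.ul (f h x)`, `Ax.dl (f 0 x)`).  If `R T` is disjoint from the column of `x` then
`Q s ⊆ R s ⊆ R T` is, for `s ≤ T`, and by HT all its vertices are in `A T`; so `inl (inl (f r x))`,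
`0 ≤ r ≤ h`, is in `burn (T + 2)`.  By BADX at most `3 (T + 3)` columns are not disjoint from `R T`.  So the
unburnt host vertices are in the caps (`Host.cap`: at most `2 N`) or of the form `f r x` with one of these
`x`: at most `(h + 1) * 3 (T + 3)`. -/
def StmtBurnt : Prop :=
  ∀ (K h : ℕ) (V D E F : Type) [Fintype V] [Fintype D] [Fintype E] [Fintype F]
    (L : Lay V) (f : ℤ → ZMod (3 * 2 ^ K) → V) (M : PM D V E F)
    (dE dW : V → D) (dU dN : V → V → D), Host K h L f → LM L M dE dW dU dN →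
    ∀ (v₀ : GV M) (σ : ℕ → Finset (GV M)), Typ M L.row (16 * K + 60) (h - 16 * K - 60) v₀ →
    Legal (GS M) 1 v₀ σ →
    (univ.filter fun v => Sum.inl (Sum.inl v) ∉ burn (GS M) v₀ σ (3 * h + 8 * K + 25)).card ≤
      2 * (3 * 2 ^ K) + 3 * (3 * h + 8 * K + 26) * (h + 1)

/-- **SAVED.** All saved vertices.

Proof. Let `T = 3 h + 8 K + 25`, `U` the host vertices that are not burnt at time `T`,
`|U| ≤ 2 N + 3 (T + 1) (h + 1)` by BURNT.  Saved host vertices are in `U`.  A leaf `inr d` that is not burnt at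
time `T + 1` is in `prot σ (T + 1)` or its corner `vt d` is in `U`; at most `7` darts start at a vertex
(`link ≤ 7` by HSMALL and each dart counts at least `1`), so there are at most `T + 1 + 7 |U|` such
leaves.  A saved centre is in `prot σ (T + 2)`, or all its leaves are not burnt at time `T + 1`; it has a
leaf, and a leaf has only one centre; so at most `(T + 2) + (T + 1 + 7 |U|)` centres.  Together at most
`15 |U| + 3 T + 4 ≤ 30 N + 45 (T + 1) (h + 1) + 3 (T + 1) (h + 1)`
(`h ≥ 1`, so `3 T + 4 ≤ 6 (T + 1) ≤ 3 (T + 1) (h + 1)`). -/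
def StmtSaved : Prop :=
  ∀ (K h : ℕ) (V D E F : Type) [Fintype V] [Fintype D] [Fintype E] [Fintype F]
    (L : Lay V) (f : ℤ → ZMod (3 * 2 ^ K) → V) (M : PM D V E F)
    (dE dW : V → D) (dU dN : V → V → D), Host K h L f → LM L M dE dW dU dN →
    ∀ (v₀ : GV M) (σ : ℕ → Finset (GV M)), Typ M L.row (16 * K + 60) (h - 16 * K - 60) v₀ →
    Legal (GS M) 1 v₀ σ →
    (saved (GS M) v₀ σ).card ≤ 30 * (3 * 2 ^ K) + 48 * (3 * h + 8 * K + 26) * (h + 1)

/-! ## Counting -/

/-- **CNT.** Numbers of vertices, edges, squares.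

Proof. Vertices: the `f r x`, `0 ≤ r ≤ h`, `x ∈ ZMod N`, are different and are all vertices outside the caps
(`Flat`); `Host.cap`.  Upper edges: sum of the numbers of upper neighbours: `1` for the vertices in even rows
`0 ≤ r < h` (`(h+1)/2` rows), `2` in odd rows `0 ≤ r < h` (`(h-1)/2` rows), `≤ 2` in row `h`, `≤ 3` in the
caps: `N (h+1)/2 + N (h-1) + 2 N + 6 N`.  Squares: by STRIP `T4 M d` iff `d` is in an even strip
`0 ≤ y < h`; the faces there are those of the `dE (f y i)`, different for different `(y, i)` (SQ: this is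
the only dart of the form `dE _` on the face), each with `4` darts. -/
def StmtCnt : Prop :=
  ∀ (K h : ℕ) (V D E F : Type) [Fintype V] [Fintype D] [Fintype E] [Fintype F]
    (L : Lay V) (f : ℤ → ZMod (3 * 2 ^ K) → V) (M : PM D V E F)
    (dE dW : V → D) (dU dN : V → V → D), Host K h L f → LM L M dE dW dU dN →
    3 * 2 ^ K * (h + 1) ≤ Fintype.card V ∧
    Fintype.card V ≤ 3 * 2 ^ K * (h + 1) + 2 * (3 * 2 ^ K) ∧
    2 * (univ.filter fun p : V × V => L.up p.1 p.2).card ≤
      3 * (3 * 2 ^ K * (h + 1)) + 12 * (3 * 2 ^ K) ∧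
    2 * Fintype.card {q : F // IsSq M q} = 3 * 2 ^ K * (h + 1) ∧
    Fintype.card {d : D // T4 M d} = 2 * (3 * 2 ^ K * (h + 1))

/-- **AVG.** The average degree of the gadget graph (CNT, LAYAD may be assumed).

Proof. Every edge of `GS M` is `{v, e v}`, `{v, k}` with `up v k`, or a leaf with its corner or with the
centre of its square (LAYAD); so `|E(GS M)| ≤ |V| + |Up| + 2 * |leaves| ≤ (13/2) N (h+1) + 8 N`.
`|GV M| = |V| + |squares| + |leaves| ≥ (7/2) N (h+1)`. -/
def StmtAvg : Prop :=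
  ∀ (K h : ℕ) (V D E F : Type) [Fintype V] [Fintype D] [Fintype E] [Fintype F]
    (L : Lay V) (f : ℤ → ZMod (3 * 2 ^ K) → V) (M : PM D V E F)
    (dE dW : V → D) (dU dN : V → V → D), Host K h L f → LM L M dE dW dU dN →
    2 * ((GS M).edgeSet.ncard : ℝ) / (Fintype.card (GV M) : ℝ) ≤ 26 / 7 + 32 / (7 * (h + 1)) ∧
    3 * 2 ^ K * (h + 1) ≤ Fintype.card (GV M)

/-- **ATYP.** The number of starts that are not typical.

Proof. Let `lo = 16 K + 60`, `hi = h - lo`, and let `B` be the set of host vertices in rows `≤ lo` or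
`≥ hi`; `|B| ≤ 2 N + 2 (lo + 1) N` (caps; at most `lo + 1` flat rows on each side).  A host vertex that is
not typical is in `B`.  A leaf `inr d` that is not typical: its square is in an even strip `y` (STRIP) and
some vertex of it is in a row `< lo` or `> hi`; so all its vertices are in rows `≤ lo` or all in rows
`≥ hi`, so `vt d ∈ B`; at most `7 |B|` such leaves (`link ≤ 7`).  A centre that is not typical has a leaf
that is not typical; at most `7 |B|`.  Together `15 |B| ≤ 30 N (lo + 2)`. -/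
def StmtAtyp : Prop :=
  ∀ (K h : ℕ) (V D E F : Type) [Fintype V] [Fintype D] [Fintype E] [Fintype F]
    (L : Lay V) (f : ℤ → ZMod (3 * 2 ^ K) → V) (M : PM D V E F)
    (dE dW : V → D) (dU dN : V → V → D), Host K h L f → LM L M dE dW dU dN →
    (univ.filter fun v₀ : GV M => ¬ Typ M L.row (16 * K + 60) (h - 16 * K - 60) v₀).card ≤
      30 * (3 * 2 ^ K) * (16 * K + 62)

/-- **RHO.** The surviving rate of the gadget graph (SAVED, ATYP, AVG may be assumed).

Proof. Let `n = |GV M| ≥ N (h+1)`.  `sn 1 (GS M) v₀ ≤ B = 30 N + 48 (3 h + 8 K + 26) (h + 1)` for typical `v₀`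
(the set in the definition of `sn` is bounded by `B` by SAVED; `sSup` of it is `≤ B`), and `≤ n` for all
`v₀`.  So `rho ≤ (n * B + |not typical| * n) / n² = (B + |not typical|) / n ≤
(30 N + 48 (3 h + 8 K + 26) (h+1) + 30 N (16 K + 62)) / (N (h+1))`. -/
def StmtRho : Prop :=
  ∀ (K h : ℕ) (V D E F : Type) [Fintype V] [Fintype D] [Fintype E] [Fintype F]
    (L : Lay V) (f : ℤ → ZMod (3 * 2 ^ K) → V) (M : PM D V E F)
    (dE dW : V → D) (dU dN : V → V → D), Host K h L f → LM L M dE dW dU dN →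
    rho 1 (GS M) ≤ 30 * (16 * K + 63) / (h + 1) + 48 * (3 * h + 8 * K + 26) / (3 * 2 ^ K)

/-- **LIM.** The parameters.  Proof: `h = 2 K^2 + 1`, `K` large (`2^K` grows faster than
polynomials). -/
def StmtLim : Prop :=
  ∀ η : ℝ, 0 < η → ∃ K : ℕ, 1 ≤ K ∧ ∃ h : ℕ, Odd h ∧
    (32 : ℝ) / (7 * (h + 1)) ≤ η ∧
    (30 : ℝ) * (16 * K + 63) / (h + 1) + 48 * (3 * h + 8 * K + 26) / (3 * 2 ^ K) < η

/-! ## Planarity -/

/-- **ROT.** From plane maps to rotation systems.

Proof. `H.Adj u v` iff `Ad M u v` (symmetric by `α`, irreflexive by `noloop`).  `D → H.Dart`,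
`d ↦ (vt d, tg d)` is a bijection (`simple`).  `σ_H` and `rev H` are the images of `σ` and `α`.
`IsRotation`: `vt_iff`.  The number of cycles of `σ_H * rev H` is `|F|` by `fc_iff`, `fc_surj`.
The edges of `H` are in bijection with `E`: `ed d ↦ s(vt d, tg d)` (`ed_iff`, `ed_surj`, `simple`).  `H` is
connected by `M.conn` (the property: `vt d` can be reached from a fixed vertex), and `V` is not empty:
if `D` is empty then `V`, `E`, `F` are empty, against `euler`. -/
def StmtRot : Prop :=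
  ∀ (D V E F : Type) [Fintype D] [Fintype V] [Fintype E] [Fintype F] (M : PM D V E F),
    (∀ d, tg M d ≠ M.vt d) → (∀ d e, M.vt d = M.vt e → tg M d = tg M e → d = e) →
    ∃ H : SimpleGraph V, (∀ u v, H.Adj u v ↔ Ad M u v) ∧ H.Connected ∧
      ∃ σ : Equiv.Perm H.Dart, Pool.Agent.Helper34.FF.Rot.IsRotation H σ ∧
        Nat.card V + Pool.Agent.Helper34.FF.Rot.numFaces H σ = Nat.card H.edgeSet + 2

/-- **PLANG.** The gadget graph is planar (ROT, CONE, CONEAD, CONESMALL, CONESIM may be assumed).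

Proof. Let `M₁` be the cone over all squares (`I = IsSq M`; `I (fc d)` iff `T4 M d`), and `M₂` the cone of
`M₁` over the faces `M₁.fc (inl d)` with `T4 M d`.  `M₁` is simple by CONESMALL.  These faces of `M₁` are
triangles with three different vertices, so `M₂` is simple by CONESIM.  The map
`{d // T4 M d} → {q // I₂ q}`, `d ↦ M₁.fc (inl d)` is a bijection (injective by `IsCone.fi`); it gives
a bijection of `GV M` with the vertices of `M₂`.  Adjacent vertices of `GS M` are adjacent in `M₂`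
(CONEAD twice): host edges; the face `M₁.fc (inl d)` has the corners `inl (vt d)` and `inr (fc d)` (the start
of `inr (d, true)`, which is on this face by `fi`).  Rename the vertices of `M₂` (`vt` composed with the
bijection is again a `PM`) and apply ROT; `GS M ≤ H`. -/
def StmtPlanG : Prop :=
  ∀ (D V E F : Type) [Fintype D] [Fintype V] [Fintype E] [Fintype F] (M : PM D V E F),
    Small M → PlanarR (GS M)

end Pool.Agent.Helper74.UB
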